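import Mathlib
import Pool.Agent.W702.CoHopf.Main

/-!
The group `(C_3 * C_5) ⋊ C_2` and its subgroup `C_3 * C_5` are finitely presented.
-/

set_option autoImplicit false

namespace Pool.Agent.TH58.CoHopfFP

open Pool.Agent.W702.CoHopf Monoid.CoprodI

instance finiteM (b : Bool) : Finite (M b) :=
  Nat.finite_of_card_ne_zero (by rw [card_M]; cases b <;> simp [q])

/-- the free product `N` as a binary free product -/
noncomputable def toCop : N →* Monoid.Coprod (M true) (M false) :=
  Monoid.CoprodI.lift fun b => match b with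
    | true => (Monoid.Coprod.inl : M true →* Monoid.Coprod (M true) (M false))
    | false => (Monoid.Coprod.inr : M false →* Monoid.Coprod (M true) (M false))

/-- the inverse map -/
noncomputable def ofCop : Monoid.Coprod (M true) (M false) →* N :=
  Monoid.Coprod.lift (of (M := M) (i := true)) (of (M := M) (i := false))

theorem ofCop_toCop : ofCop.comp toCop = MonoidHom.id N := by
  apply Monoid.CoprodI.ext_hom
  intro b
  ext x
  cases b <;> simp [toCop, ofCop]

theorem toCop_ofCop : toCop.comp ofCop = MonoidHom.id _ := by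
  apply Monoid.Coprod.hom_ext
  · ext x; simp [toCop, ofCop]
  · ext x; simp [toCop, ofCop]

noncomputable def copEquiv : Monoid.Coprod (M true) (M false) ≃* N :=
  MonoidHom.toMulEquiv ofCop toCop toCop_ofCop ofCop_toCop

theorem fp_N : Group.IsFinitelyPresented N := Group.IsFinitelyPresented.equiv copEquiv

/-- the map from the free product of `N` and `C_2` -/
noncomputable def ff : Monoid.Coprod N ℤˣ →* G :=
  Monoid.Coprod.lift SemidirectProduct.inl SemidirectProduct.inr

theorem ff_surj : Function.Surjective ff := by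
  intro g
  refine ⟨Monoid.Coprod.inl g.left * Monoid.Coprod.inr g.right, ?_⟩
  simp only [ff, map_mul, Monoid.Coprod.lift_apply_inl, Monoid.Coprod.lift_apply_inr]
  exact SemidirectProduct.inl_left_mul_inr_right g

/-- the defining relators -/
noncomputable def rel (s : Σ b, M b) : Monoid.Coprod N ℤˣ :=
  Monoid.Coprod.inr (-1) * Monoid.Coprod.inl (of s.2) * Monoid.Coprod.inr (-1) *
    Monoid.Coprod.inl (of s.2)

theorem inr_inl (x : N) : (SemidirectProduct.inr (-1) : G) * SemidirectProduct.inl x *
      SemidirectProduct.inr (-1) = SemidirectProduct.inl (sigma x) := by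
  have h := SemidirectProduct.inl_aut (φ := act) (-1) x
  rw [act_neg] at h
  rw [h]
  simp

theorem ff_rel (s : Σ b, M b) : ff (rel s) = 1 := by
  have h := inr_inl (of s.2)
  rw [sigma_of] at h
  simp only [rel, ff, map_mul, Monoid.Coprod.lift_apply_inl, Monoid.Coprod.lift_apply_inr]
  rw [h, ← map_mul, ← map_mul]
  simp

/-- the set of relators -/
noncomputable def relS : Set (Monoid.Coprod N ℤˣ) := Set.range rel

theorem finite_relS : relS.Finite := Set.finite_range rel

/-- the quotient by the relators -/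
abbrev Qt : Type := Monoid.Coprod N ℤˣ ⧸ Subgroup.normalClosure relS

noncomputable def mkQ : Monoid.Coprod N ℤˣ →* Qt := QuotientGroup.mk' _

theorem mkQ_rel (s : Σ b, M b) : mkQ (rel s) = 1 :=
  (QuotientGroup.eq_one_iff _).2 (Subgroup.subset_normalClosure ⟨s, rfl⟩)

theorem mkQ_rel' {b : Bool} (x : M b) :
    mkQ (Monoid.Coprod.inl (of x⁻¹)) = mkQ (Monoid.Coprod.inr (-1)) *
      mkQ (Monoid.Coprod.inl (of x)) * mkQ (Monoid.Coprod.inr (-1)) := by
  have h := mkQ_rel ⟨b, x⟩
  simp only [rel, map_mul] at h
  have h2 : mkQ (Monoid.Coprod.inl (of x)) * mkQ (Monoid.Coprod.inl (of x⁻¹)) = 1 := by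
    rw [← map_mul, ← map_mul, ← map_mul, mul_inv_cancel, map_one, map_one, map_one]
  exact (eq_inv_of_mul_eq_one_right h2).trans (eq_inv_of_mul_eq_one_left h).symm

theorem mkQ_inv : (mkQ (Monoid.Coprod.inr (-1)))⁻¹ = mkQ (Monoid.Coprod.inr (-1)) := by
  apply inv_eq_of_mul_eq_one_left
  rw [← map_mul, ← map_mul]
  simp

theorem compat (u : ℤˣ) :
    (mkQ.comp Monoid.Coprod.inl).comp (act u).toMonoidHom =
      (MulAut.conj ((mkQ.comp Monoid.Coprod.inr) u)).toMonoidHom.comp
        (mkQ.comp Monoid.Coprod.inl) := by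
  rcases Int.units_eq_one_or u with rfl | rfl
  · refine MonoidHom.ext fun x => ?_
    show mkQ (Monoid.Coprod.inl (act 1 x)) = MulAut.conj (mkQ (Monoid.Coprod.inr 1))
      (mkQ (Monoid.Coprod.inl x))
    rw [map_one, map_one, map_one, map_one]
    rfl
  · apply Monoid.CoprodI.ext_hom
    intro b
    refine MonoidHom.ext fun x => ?_
    show mkQ (Monoid.Coprod.inl (act (-1) (of x))) = MulAut.conj (mkQ (Monoid.Coprod.inr (-1)))
      (mkQ (Monoid.Coprod.inl (of x)))
    rw [act_neg, sigma_of, MulAut.conj_apply, mkQ_inv]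
    exact mkQ_rel' x

noncomputable def gg : G →* Qt :=
  SemidirectProduct.lift (mkQ.comp Monoid.Coprod.inl) (mkQ.comp Monoid.Coprod.inr) compat

theorem gg_ff : gg.comp ff = mkQ := by
  apply Monoid.Coprod.hom_ext
  · ext x
    all_goals simp [gg, ff]
  · ext x
    simp [gg, ff]

theorem ker_ff : ff.ker = Subgroup.normalClosure relS := by
  apply le_antisymm
  · intro x hx
    have h1 : mkQ x = 1 := by
      rw [← gg_ff, MonoidHom.comp_apply, MonoidHom.mem_ker.1 hx, map_one]
    exact (QuotientGroup.eq_one_iff _).1 h1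
  · apply Subgroup.normalClosure_le_normal
    rintro _ ⟨s, rfl⟩
    exact ff_rel s

theorem fp_G : Group.IsFinitelyPresented G := by
  have := fp_N
  refine Group.IsFinitelyPresented.of_surjective (G := Monoid.Coprod N ℤˣ) (H := G) ff ff_surj ?_
  exact ⟨relS, finite_relS, ker_ff.symm⟩

theorem fp_H : Group.IsFinitelyPresented H := by
  have := fp_N
  have e : N ≃* H := (MonoidHom.ofInjective (SemidirectProduct.inl_injective (φ := act))).trans
    (MulEquiv.subgroupCongr H_eq.symm)
  exact Group.IsFinitelyPresented.equiv e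

end Pool.Agent.TH58.CoHopfFP
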