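import Pool.Agent.TH492.Defs

set_option autoImplicit false
set_option linter.unusedSectionVars false

namespace Pool.Agent.TH58.J345

open Finset Pool.Agent.TH492

universe u
variable {V : Type u} [Fintype V] [DecidableEq V]

theorem Lk_mono {L0 : Finset V} {T : ℕ → Finset V} {k l : ℕ} (h : k ≤ l) :
    Lk L0 T k ⊆ Lk L0 T l := by
  intro x hx
  unfold Lk at *
  rcases Finset.mem_union.1 hx with hx | hx
  · exact Finset.mem_union_left _ hx
  · rw [Finset.mem_biUnion] at hx
    obtain ⟨i, hi, hxi⟩ := hx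
    refine Finset.mem_union_right _ (Finset.mem_biUnion.2 ⟨i, ?_, hxi⟩)
    rw [Finset.mem_range] at *
    omega

theorem L0_sub {L0 : Finset V} {T : ℕ → Finset V} {k : ℕ} : L0 ⊆ Lk L0 T k := by
  unfold Lk
  exact Finset.subset_union_left

/-- counting step: many members, few bad pairs. -/
theorem counting {s D D' N Q : ℕ} (hN : N = 4 * D * Q) (hN0 : 0 < N) (hD' : 2 * N ≤ D')
    (I : Finset ℕ) (hI : I.card = N) (U : Finset V) (hU : U.card ≤ D * s)
    (W : ℕ → Finset V) (hWU : ∀ k ∈ I, W k ⊆ U) (hbig : ∀ k ∈ I, s < 2 * (W k).card)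
    (hsm : ∀ k ∈ I, (W k).card ≤ s) :
    ∃ J : Finset ℕ, J ⊆ I ∧ J.card = Q ∧
      ∀ k ∈ J, ∀ l ∈ J, k < l → (W k).card ≤ D' * (W k ∩ W l).card := by
  classical
  set BP : Finset (ℕ × ℕ) := (I ×ˢ I).filter
    (fun x => x.1 < x.2 ∧ D' * (W x.1 ∩ W x.2).card < (W x.1).card) with hBP
  set d : V → ℕ := fun u => (I.filter (fun k => u ∈ W k)).card with hd
  set b : V → ℕ := fun u => (BP.filter (fun x => u ∈ W x.1 ∩ W x.2)).card with hb
  -- the sum of d
  have hsumd : ∑ u ∈ U, d u = ∑ k ∈ I, (W k).card := by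
    have h1 : ∑ u ∈ U, d u = ∑ u ∈ U, ∑ k ∈ I, (if u ∈ W k then 1 else 0) := by
      apply Finset.sum_congr rfl
      intro u _
      rw [hd]
      simp only [Finset.card_filter]
    rw [h1, Finset.sum_comm]
    apply Finset.sum_congr rfl
    intro k hk
    rw [← Finset.card_filter]
    congr 1
    ext u
    simp only [Finset.mem_filter]
    exact ⟨fun h => h.2, fun h => ⟨hWU k hk h, h⟩⟩
  have hsumb : ∑ u ∈ U, b u = ∑ x ∈ BP, (W x.1 ∩ W x.2).card := by
    have h1 : ∑ u ∈ U, b u = ∑ u ∈ U, ∑ x ∈ BP, (if u ∈ W x.1 ∩ W x.2 then 1 else 0) := by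
      apply Finset.sum_congr rfl
      intro u _
      rw [hb]
      simp only [Finset.card_filter]
    rw [h1, Finset.sum_comm]
    apply Finset.sum_congr rfl
    intro x hx
    rw [← Finset.card_filter]
    congr 1
    ext u
    simp only [Finset.mem_filter]
    refine ⟨fun h => h.2, fun h => ⟨?_, h⟩⟩
    rw [hBP, Finset.mem_filter, Finset.mem_product] at hx
    exact hWU _ hx.1.1 (Finset.mem_inter.1 h).1
  have hd1 : N * (s + 1) ≤ 2 * ∑ u ∈ U, d u := by
    rw [hsumd, Finset.mul_sum, ← hI, ← smul_eq_mul, ← Finset.sum_const]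
    apply Finset.sum_le_sum
    intro k hk
    exact hbig k hk
  have hBPc : 2 * BP.card ≤ N * N := by
    have h1 : BP ⊆ (I ×ˢ I).filter (fun x => x.1 < x.2) := by
      intro x hx
      rw [hBP, Finset.mem_filter] at hx
      rw [Finset.mem_filter]
      exact ⟨hx.1, hx.2.1⟩
    have h2 := Finset.card_le_card h1
    have h3 : ((I ×ˢ I).filter (fun x => x.1 < x.2)).card =
        ((I ×ˢ I).filter (fun x => x.2 < x.1)).card := by
      apply Finset.card_bij (fun x _ => (x.2, x.1))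
      · intro x hx
        simp only [Finset.mem_filter, Finset.mem_product] at hx ⊢
        exact ⟨⟨hx.1.2, hx.1.1⟩, hx.2⟩
      · intro x _ y _ hxy
        simp only [Prod.mk.injEq] at hxy
        exact Prod.ext hxy.2 hxy.1
      · intro x hx
        refine ⟨(x.2, x.1), ?_, rfl⟩
        simp only [Finset.mem_filter, Finset.mem_product] at hx ⊢
        exact ⟨⟨hx.1.2, hx.1.1⟩, hx.2⟩
    have h4 : Disjoint ((I ×ˢ I).filter (fun x => x.1 < x.2))
        ((I ×ˢ I).filter (fun x => x.2 < x.1)) := by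
      rw [Finset.disjoint_filter]
      intro x _ h1 h2
      omega
    have h5 : ((I ×ˢ I).filter (fun x => x.1 < x.2) ∪
        (I ×ˢ I).filter (fun x => x.2 < x.1)).card ≤ (I ×ˢ I).card := by
      apply Finset.card_le_card
      intro x hx
      rcases Finset.mem_union.1 hx with hx | hx
      · exact (Finset.mem_filter.1 hx).1
      · exact (Finset.mem_filter.1 hx).1
    rw [Finset.card_union_of_disjoint h4, Finset.card_product, hI] at h5
    omega
  have hb1 : D' * ∑ u ∈ U, b u ≤ BP.card * s := by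
    rw [hsumb, Finset.mul_sum, ← smul_eq_mul, ← Finset.sum_const]
    apply Finset.sum_le_sum
    intro x hx
    rw [hBP, Finset.mem_filter, Finset.mem_product] at hx
    have := hsm _ hx.1.1
    omega
  -- arithmetic
  have hlt : (∑ u ∈ U, b u) + U.card * Q < ∑ u ∈ U, d u := by
    have e1 : 2 * (2 * N * ∑ u ∈ U, b u) ≤ N * N * s := by
      calc 2 * (2 * N * ∑ u ∈ U, b u) ≤ 2 * (D' * ∑ u ∈ U, b u) := by gcongr
        _ ≤ 2 * (BP.card * s) := by gcongr
        _ = 2 * BP.card * s := by ring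
        _ ≤ N * N * s := by gcongr
    have e2 : 4 * ∑ u ∈ U, b u ≤ N * s := by
      have : N * (4 * ∑ u ∈ U, b u) ≤ N * (N * s) := by
        calc N * (4 * ∑ u ∈ U, b u) = 2 * (2 * N * ∑ u ∈ U, b u) := by ring
          _ ≤ N * N * s := e1
          _ = N * (N * s) := by ring
      exact Nat.le_of_mul_le_mul_left this hN0
    have e3 : 4 * (U.card * Q) ≤ N * s := by
      calc 4 * (U.card * Q) ≤ 4 * (D * s * Q) := by gcongr
        _ = N * s := by rw [hN]; ring
    have e4 : 2 * (N * s) + 2 * N ≤ 4 * ∑ u ∈ U, d u := by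
      have : N * (s + 1) = N * s + N := by ring
      omega
    omega
  obtain ⟨u, hu, hub⟩ : ∃ u ∈ U, b u + Q < d u := by
    by_contra hcon
    push Not at hcon
    have := Finset.sum_le_sum hcon
    rw [Finset.sum_add_distrib, Finset.sum_const, smul_eq_mul] at this
    omega
  set Iu := I.filter (fun k => u ∈ W k) with hIu
  set Bu := BP.filter (fun x => u ∈ W x.1 ∩ W x.2) with hBu
  have hcard : Q ≤ (Iu \ Bu.image Prod.fst).card := by
    have h1 : (Bu.image Prod.fst).card ≤ Bu.card := Finset.card_image_le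
    have h2 : Iu.card - (Bu.image Prod.fst).card ≤ (Iu \ Bu.image Prod.fst).card :=
      Finset.le_card_sdiff _ _
    have h3 : b u = Bu.card := rfl
    have h4 : d u = Iu.card := rfl
    omega
  obtain ⟨J, hJs, hJc⟩ := Finset.exists_subset_card_eq hcard
  refine ⟨J, ?_, hJc, ?_⟩
  · intro k hk
    have := hJs hk
    rw [Finset.mem_sdiff, hIu, Finset.mem_filter] at this
    exact this.1.1
  · intro k hk l hl hkl
    by_contra hcon
    push Not at hcon
    have h1 := hJs hk
    have h2 := hJs hl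
    rw [Finset.mem_sdiff, hIu, Finset.mem_filter] at h1 h2
    apply h1.2
    rw [Finset.mem_image]
    refine ⟨(k, l), ?_, rfl⟩
    rw [hBu, Finset.mem_filter, hBP, Finset.mem_filter, Finset.mem_product]
    exact ⟨⟨⟨h1.1.1, h2.1.1⟩, hkl, hcon⟩, Finset.mem_inter.2 ⟨h1.1.2, h2.1.2⟩⟩

/-- the clique minor. -/
theorem clique_false {G : SimpleGraph V} {r p ρ Q : ℕ} (hQ : Q = 2 * p + 2) (hd : Dens G r p)
    (hρr : ρ ≤ r)
    {S : Finset V} (L : Fin Q → Finset V) (hSL : ∀ a, S ⊆ L a)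
    (v : Fin Q → V) (hv : ∀ a, v a ∉ L a)
    (hdis : ∀ a b, a < b → ∀ y, Rch G (L a) ρ (v a) y → ¬ Rch G (L b) ρ (v b) y)
    (hw : ∀ a b, a < b →
      Q ^ 2 ≤ ((Sight G (L a) ρ (v a) ∩ S) ∩ (Sight G (L b) ρ (v b) ∩ S)).card) :
    False := by
  classical
  let ι := {x : Fin Q × Fin Q // x.1 < x.2}
  let W : Fin Q → Finset V := fun a => Sight G (L a) ρ (v a) ∩ S
  let tt : ι → Finset V := fun x => W x.1.1 ∩ W x.1.2
  have hcι : Fintype.card ι ≤ Q ^ 2 := by
    have := Fintype.card_subtype_le (fun x : Fin Q × Fin Q => x.1 < x.2)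
    simp only [Fintype.card_prod, Fintype.card_fin] at this
    calc Fintype.card ι ≤ Q * Q := this
      _ = Q ^ 2 := by ring
  have hall : ∀ s : Finset ι, s.card ≤ (s.biUnion tt).card := by
    intro s
    rcases s.eq_empty_or_nonempty with rfl | ⟨x, hx⟩
    · simp
    · calc s.card ≤ Fintype.card ι := Finset.card_le_univ s
        _ ≤ Q ^ 2 := hcι
        _ ≤ (tt x).card := hw x.1.1 x.1.2 x.2
        _ ≤ (s.biUnion tt).card := Finset.card_le_card (Finset.subset_biUnion_of_mem tt hx)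
  obtain ⟨w, hwinj, hwm⟩ := (Finset.all_card_le_biUnion_card_iff_exists_injective tt).1 hall
  have hwa : ∀ x : ι, Sees G (L x.1.1) ρ (v x.1.1) (w x) := fun x =>
    mem_sight.1 (Finset.mem_inter.1 (Finset.mem_inter.1 (hwm x)).1).1
  have hwb : ∀ x : ι, Sees G (L x.1.2) ρ (v x.1.2) (w x) := fun x =>
    mem_sight.1 (Finset.mem_inter.1 (Finset.mem_inter.1 (hwm x)).2).1
  have hwS : ∀ x : ι, w x ∈ S := fun x =>
    (Finset.mem_inter.1 (Finset.mem_inter.1 (hwm x)).1).2
  let B : Fin Q → Set V := fun a =>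
    {y | Rch G (L a) ρ (v a) y} ∪ {y | ∃ x : ι, x.1.1 = a ∧ y = w x}
  have hball : ∀ a z j, j ≤ ρ → Rch G (L a) j (v a) z → z ∈ B a := fun a z j hj hz =>
    Or.inl (hz.mono (Finset.Subset.refl _) hj)
  have hadj : ∀ a b (hab : a < b), ∃ y ∈ B a, ∃ z ∈ B b, G.Adj y z := by
    intro a b hab
    obtain ⟨_, j, hj, z, hz, hzw⟩ := hwb ⟨(a, b), hab⟩
    refine ⟨w ⟨(a, b), hab⟩, Or.inr ⟨⟨(a, b), hab⟩, rfl, rfl⟩, z, hball b z j hj.le hz, hzw.symm⟩
  have hdisj : ∀ a b, a < b → Disjoint (B a) (B b) := by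
    intro a b hab
    rw [Set.disjoint_left]
    rintro y (hy | ⟨x, hxa, hyx⟩) (hy' | ⟨x', hxb, hyx'⟩)
    · exact hdis a b hab y hy hy'
    · apply Rch.right hy
      rw [hyx']
      exact hSL a (hwS x')
    · apply Rch.right hy'
      rw [hyx]
      exact hSL b (hwS x)
    · have : x = x' := hwinj (hyx.symm.trans hyx')
      rw [this] at hxa
      rw [hxa] at hxb
      exact absurd hxb (ne_of_lt hab)
  have key := hd Q ⊤ B ?_ ?_ ?_
  · have hcount : (⊤ : SimpleGraph (Fin Q)).edgeSet.ncard = (p + 1) * (2 * p + 1) := by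
      rw [← SimpleGraph.coe_edgeFinset, Set.ncard_coe_finset, SimpleGraph.card_edgeFinset_top_eq_card_choose_two,
        Fintype.card_fin, hQ, Nat.choose_two_right]
      have : (2 * p + 2) * (2 * p + 2 - 1) = 2 * ((p + 1) * (2 * p + 1)) := by
        have : 2 * p + 2 - 1 = 2 * p + 1 := by omega
        rw [this]; ring
      rw [this, Nat.mul_div_cancel_left _ (by norm_num)]
    rw [hcount, hQ] at key
    nlinarith
  · intro a b hab
    rcases lt_or_gt_of_ne hab with h | h
    · exact hdisj a b h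
    · exact (hdisj b a h).symm
  · intro a
    refine ⟨v a, Or.inl (Rch.refl (hv a)), ?_⟩
    rintro y (⟨q, hq, hqL⟩ | ⟨x, hxa, rfl⟩)
    · refine ⟨q, hq.trans hρr, ?_⟩
      intro z hz
      exact hball a z q.length hq (rch_of_mem_support hqL hz)
    · have hs := hwa x
      rw [hxa] at hs
      obtain ⟨_, j, hj, z, ⟨q, hq, hqL⟩, hzw⟩ := hs
      refine ⟨q.concat hzw, ?_, ?_⟩
      · rw [SimpleGraph.Walk.length_concat]
        omega
      · intro y hy
        rw [SimpleGraph.Walk.support_concat, List.mem_append,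
          List.mem_singleton] at hy
        rcases hy with hy | rfl
        · exact hball a y q.length (by omega) (rch_of_mem_support hqL hy)
        · exact Or.inr ⟨x, hxa, rfl⟩
  · intro a b hab
    rw [SimpleGraph.top_adj] at hab
    rcases lt_or_gt_of_ne hab with h | h
    · exact hadj a b h
    · obtain ⟨y, hy, z, hz, hyz⟩ := hadj b a h
      exact ⟨z, hz, y, hy, hyz.symm⟩

open Classical in
/-- L3 -/
theorem packing {G : SimpleGraph V} {r p ρ s D D' t : ℕ} (hd : Dens G r p) (hρ : 1 ≤ ρ)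
    (hρr : ρ ≤ r) (hD : 1 ≤ D) (hD' : 8 * D * (2 * p + 2) ≤ D')
    (hs : 2 * D' * (2 * p + 2) ^ 2 ≤ s) {S L0 : Finset V} (hS : S ⊆ L0)
    (h1 : ∀ x, x ∉ L0 → (Sight G L0 ρ x ∩ S).card ≤ s)
    (h2 : ∀ x, x ∉ L0 → (Sight G L0 (5 * ρ) x ∩ S).card ≤ D * s)
    {v : ℕ → V} {T : ℕ → Finset V} (h : FixSeq G S L0 ρ s D' t v T) (x : V)
    (hx : x ∉ Lk L0 T t) :
    ((range t).filter (fun k => (Sight G (Lk L0 T t) ρ x ∩ T k).Nonempty)).card <
      4 * D * (2 * p + 2) := by
  by_contra hcon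
  push Not at hcon
  obtain ⟨I, hIs, hIc⟩ := Finset.exists_subset_card_eq hcon
  set W : ℕ → Finset V := fun k => Sight G (Lk L0 T k) ρ (v k) ∩ S with hW
  set U := Sight G L0 (5 * ρ) x ∩ S with hU
  have hxL0 : x ∉ L0 := fun hh => hx (L0_sub hh)
  have hIt : ∀ k ∈ I, k < t := by
    intro k hk
    have := hIs hk
    rw [Finset.mem_filter, Finset.mem_range] at this
    exact this.1
  have hWs : ∀ k < t, (W k).card ≤ s := by
    intro k hk
    refine (Finset.card_le_card ?_).trans (h1 (v k) (fun hh => h.start k hk (L0_sub hh)))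
    intro w hw
    rw [hW, Finset.mem_inter, mem_sight] at hw
    rw [Finset.mem_inter, mem_sight]
    exact ⟨hw.1.mono L0_sub (hS hw.2) le_rfl, hw.2⟩
  have hWU : ∀ k ∈ I, W k ⊆ U := by
    intro k hk w hw
    have hk' := hIs hk
    rw [Finset.mem_filter, Finset.mem_range] at hk'
    obtain ⟨hkt, y, hy⟩ := hk'
    rw [Finset.mem_inter, mem_sight] at hy
    obtain ⟨⟨_, j, hj, z, hz, hzy⟩, hyT⟩ := hy
    have hykL : y ∉ Lk L0 T k := Finset.disjoint_left.1 (h.dis k hkt) hyT
    have r1 : Rch G (Lk L0 T k) (j + 1) x y := (hz.mono (Lk_mono hkt.le) le_rfl).step hzy hykL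
    have r2 := r1.trans (h.reg k hkt y hyT).symm
    rw [hW, Finset.mem_inter, mem_sight] at hw
    rw [hU, Finset.mem_inter, mem_sight]
    exact ⟨(r2.sees hw.1).mono L0_sub (hS hw.2) (by omega), hw.2⟩
  obtain ⟨J, hJI, hJc, hJ⟩ := counting (D := D) (D' := D') (s := s) (N := 4 * D * (2 * p + 2))
    (Q := 2 * p + 2) rfl (by positivity) (by linarith) I hIc U (h2 x hxL0) W hWU
    (fun k hk => h.big k (hIt k hk)) (fun k hk => hWs k (hIt k hk))
  -- enumerate J
  set e := J.orderEmbOfFin hJc with he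
  have heJ : ∀ a, e a ∈ J := fun a => J.orderEmbOfFin_mem hJc a
  have het : ∀ a, e a < t := fun a => hIt _ (hJI (heJ a))
  have hmono : ∀ a b, a < b → e a < e b := fun a b hab => e.strictMono hab
  have hD'0 : 0 < D' := by
    have : 0 < 8 * D * (2 * p + 2) := by positivity
    omega
  refine clique_false rfl hd hρr (S := S) (fun a => Lk L0 T (e a)) (fun a => hS.trans L0_sub)
    (fun a => v (e a)) (fun a => h.start _ (het a)) ?_ ?_
  · intro a b hab y hya hyb
    have hlt := hmono a b hab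
    have hr : Rch G (Lk L0 T (e a)) (2 * ρ) (v (e a)) (v (e b)) := by
      have := hya.trans ((hyb.mono (Lk_mono hlt.le) le_rfl).symm)
      rwa [← two_mul] at this
    have hnot : v (e b) ∉ Lk L0 T (e a + 1) := fun hh =>
      h.start _ (het b) (Lk_mono (Nat.succ_le_of_lt hlt) hh)
    have h3 := h.prot _ (het a) _ hr hnot
    have h4 := hJ _ (heJ a) _ (heJ b) hlt
    have h5 : (W (e a) ∩ W (e b)).card ≤
        (Sight G (Lk L0 T (e a + 1)) ρ (v (e b)) ∩ (Sight G (Lk L0 T (e a)) ρ (v (e a)) ∩ S)).card := by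
      apply Finset.card_le_card
      intro w hw
      rw [Finset.mem_inter] at hw
      rw [Finset.mem_inter, mem_sight]
      refine ⟨?_, hw.1⟩
      have hw2 := hw.2
      rw [hW, Finset.mem_inter, mem_sight] at hw2
      exact hw2.1.mono (Lk_mono (Nat.succ_le_of_lt hlt)) (L0_sub (hS hw2.2)) le_rfl
    have h6 := Nat.mul_le_mul_left D' h5
    have h7 : (W (e a)).card = (Sight G (Lk L0 T (e a)) ρ (v (e a)) ∩ S).card := rfl
    omega
  · intro a b hab
    have h4 := hJ _ (heJ a) _ (heJ b) (hmono a b hab)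
    have h5 := h.big _ (het a)
    have h7 : (W (e a)).card = (Sight G (Lk L0 T (e a)) ρ (v (e a)) ∩ S).card := rfl
    have h8 : D' * (2 * p + 2) ^ 2 < D' * (W (e a) ∩ W (e b)).card := by
      have : 2 * (D' * (2 * p + 2) ^ 2) ≤ s := by
        calc 2 * (D' * (2 * p + 2) ^ 2) = 2 * D' * (2 * p + 2) ^ 2 := by ring
          _ ≤ s := hs
      omega
    exact (Nat.lt_of_mul_lt_mul_left h8).le

end Pool.Agent.TH58.J345
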