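import Pool.Agent.TH981.LO.Defs

set_option autoImplicit false

open scoped BigOperators symmDiff

namespace Pool.Agent.TH981.LO

variable {d : ℕ}

namespace Aux347

theorem nm_le_iff' {n : ℕ} {v : Vt d} : nm v ≤ n ↔ ∀ i, (v i).natAbs ≤ n := by
  unfold nm
  rw [Finset.sup_le_iff]
  simp

theorem natAbs_le_nm (v : Vt d) (i : Fin d) : (v i).natAbs ≤ nm v := nm_le_iff'.1 le_rfl i

theorem mem_box' {n : ℕ} {v : Vt d} : v ∈ box d n ↔ nm v ≤ n := by
  rw [nm_le_iff']
  unfold box
  rw [Finset.mem_Icc]
  constructor
  · rintro ⟨h1, h2⟩ i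
    have h1 := h1 i
    have h2 := h2 i
    simp only at h1 h2
    omega
  · intro h
    constructor
    · intro i
      have := h i
      simp only
      omega
    · intro i
      have := h i
      simp only
      omega

theorem mem_EB' {n : ℕ} {e : Ed d} : e ∈ EB d n ↔ nm e.1 ≤ n ∧ nm (e.1 + ev e.2) ≤ n := by
  unfold EB
  rw [Finset.mem_filter, Finset.mem_product, mem_box', mem_box']
  simp

theorem ev_ne (v : Vt d) (i : Fin d) : v + ev i ≠ v := by
  intro h
  have := congrFun h i
  simp [ev] at this

theorem inc_apply (e : Ed d) (v : Vt d) :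
    (lat d).inc e v = if e.1 = v ∨ e.1 + ev e.2 = v then 1 else 0 := by
  have hs : (lat d).s e = e.1 := rfl
  have ht : (lat d).t e = e.1 + ev e.2 := rfl
  unfold MG.inc two
  rw [hs, ht, Pi.add_apply, Pi.single_apply, Pi.single_apply]
  by_cases h1 : e.1 = v
  · have h2 : ¬ (e.1 + ev e.2 = v) := fun h => ev_ne e.1 e.2 (h.trans h1.symm)
    have h2' : ¬ (v = e.1 + ev e.2) := fun h => h2 h.symm
    rw [if_pos h1.symm, if_neg h2', if_pos (Or.inl h1), add_zero]
  · by_cases h2 : e.1 + ev e.2 = v
    · have h1' : ¬ (v = e.1) := fun h => h1 h.symm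
      simp [h1, h1', h2]
    · have h1' : ¬ (v = e.1) := fun h => h1 h.symm
      have h2' : ¬ (v = e.1 + ev e.2) := fun h => h2 h.symm
      simp [h1, h1', h2, h2']

theorem two_self (a : Vt d) : two a a = 0 := by
  unfold two
  funext v
  rw [Pi.add_apply, Pi.zero_apply]
  exact CharTwo.add_self_eq_zero _

theorem two_trans (a b c : Vt d) : two a b + two b c = two a c := by
  unfold two
  funext v
  simp only [Pi.add_apply]
  have : (Pi.single b (1 : ZMod 2) : Vt d → ZMod 2) v + (Pi.single b (1 : ZMod 2) : Vt d → ZMod 2) v = 0 :=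
    CharTwo.add_self_eq_zero _
  linear_combination this

theorem two_comm (a b : Vt d) : two a b = two b a := by
  unfold two
  rw [add_comm]

/-- adding one edge mod 2 -/
theorem add_edge {n : ℕ} (e : Ed d) (he : e ∈ EB d n) (η : Finset (Ed d)) (hη : η ⊆ EB d n) :
    ∃ η' ⊆ EB d n, (lat d).bd η' = (lat d).inc e + (lat d).bd η ∧ η'.card ≤ η.card + 1 := by
  by_cases h : e ∈ η
  · refine ⟨η.erase e, (Finset.erase_subset _ _).trans hη, ?_, ?_⟩
    · have h1 := Finset.add_sum_erase η (lat d).inc h
      unfold MG.bd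
      rw [← h1, ← add_assoc]
      have : (lat d).inc e + (lat d).inc e = 0 := by
        funext v
        rw [Pi.add_apply, Pi.zero_apply]
        exact CharTwo.add_self_eq_zero _
      rw [this, zero_add]
    · have := Finset.card_erase_le (s := η) (a := e)
      omega
  · refine ⟨insert e η, Finset.insert_subset he hη, ?_, Finset.card_insert_le _ _⟩
    unfold MG.bd
    rw [Finset.sum_insert h]

/-- induction on the `ℓ¹` distance -/
theorem path_aux {n : ℕ} (b : Vt d) (hb : nm b ≤ n) : ∀ (m : ℕ) (a : Vt d), nm a ≤ n →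
    ∑ i, (a i - b i).natAbs = m →
    ∃ η ⊆ EB d n, (lat d).bd η = two a b ∧ η.card ≤ m := by
  intro m
  induction m with
  | zero =>
    intro a _ hm
    have hab : a = b := by
      rw [Finset.sum_eq_zero_iff] at hm
      funext i
      have := hm i (Finset.mem_univ i)
      omega
    refine ⟨∅, Finset.empty_subset _, ?_, by simp⟩
    rw [hab, two_self]
    rfl
  | succ m ih =>
    intro a ha hm
    obtain ⟨i, hi⟩ : ∃ i, a i ≠ b i := by
      by_contra hcon
      push Not at hcon
      have : ∑ i, (a i - b i).natAbs = 0 := by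
        apply Finset.sum_eq_zero
        intro i _
        rw [hcon i]
        simp
      omega
    have hai := nm_le_iff'.1 ha
    have hbi := nm_le_iff'.1 hb
    rcases lt_or_gt_of_ne hi with hlt | hgt
    · -- go up
      have ha' : nm (a + ev i) ≤ n := by
        rw [nm_le_iff']
        intro j
        have h1 := hai j
        have h2 := hbi j
        by_cases hj : j = i
        · subst hj
          simp only [ev, Pi.add_apply, Pi.single_eq_same]
          omega
        · simp only [ev, Pi.add_apply, Pi.single_eq_of_ne hj]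
          omega
      have hsum : ∑ j, ((a + ev i) j - b j).natAbs = m := by
        rw [← Finset.add_sum_erase _ _ (Finset.mem_univ i)] at hm ⊢
        have h1 : ∑ x ∈ Finset.univ.erase i, ((a + ev i) x - b x).natAbs =
            ∑ x ∈ Finset.univ.erase i, (a x - b x).natAbs := by
          apply Finset.sum_congr rfl
          intro x hx
          have hx := Finset.ne_of_mem_erase hx
          simp only [ev, Pi.add_apply, Pi.single_eq_of_ne hx, add_zero]
        rw [h1]
        simp only [ev, Pi.add_apply, Pi.single_eq_same]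
        omega
      obtain ⟨η, hη, hbd, hc⟩ := ih (a + ev i) ha' hsum
      obtain ⟨η', hη', hbd', hc'⟩ := add_edge (n := n) (a, i) (mem_EB'.2 ⟨ha, ha'⟩) η hη
      refine ⟨η', hη', ?_, by omega⟩
      rw [hbd', hbd]
      exact two_trans a (a + ev i) b
    · have ha' : nm (a - ev i) ≤ n := by
        rw [nm_le_iff']
        intro j
        have h1 := hai j
        have h2 := hbi j
        by_cases hj : j = i
        · subst hj
          simp only [ev, Pi.sub_apply, Pi.single_eq_same]
          omega
        · simp only [ev, Pi.sub_apply, Pi.single_eq_of_ne hj]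
          omega
      have hsum : ∑ j, ((a - ev i) j - b j).natAbs = m := by
        rw [← Finset.add_sum_erase _ _ (Finset.mem_univ i)] at hm ⊢
        have h1 : ∑ x ∈ Finset.univ.erase i, ((a - ev i) x - b x).natAbs =
            ∑ x ∈ Finset.univ.erase i, (a x - b x).natAbs := by
          apply Finset.sum_congr rfl
          intro x hx
          have hx := Finset.ne_of_mem_erase hx
          simp only [ev, Pi.sub_apply, Pi.single_eq_of_ne hx, sub_zero]
        rw [h1]
        simp only [ev, Pi.sub_apply, Pi.single_eq_same]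
        omega
      obtain ⟨η, hη, hbd, hc⟩ := ih (a - ev i) ha' hsum
      obtain ⟨η', hη', hbd', hc'⟩ := add_edge (n := n) (a - ev i, i)
        (mem_EB'.2 ⟨ha', by simpa using ha⟩) η hη
      refine ⟨η', hη', ?_, by omega⟩
      rw [hbd', hbd]
      have : (lat d).inc (a - ev i, i) = two a (a - ev i) := by
        rw [two_comm]
        unfold MG.inc
        have hs : (lat d).s (a - ev i, i) = a - ev i := rfl
        have ht : (lat d).t (a - ev i, i) = a := by
          show a - ev i + ev i = a
          simp
        rw [hs, ht]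
      rw [this]
      exact two_trans a (a - ev i) b

theorem adj_nm {ω : Finset (Ed d)} {a c v : Vt d} (h : (lat d).adj ω a c) :
    nm (c - v) ≤ nm (a - v) + 1 := by
  obtain ⟨e, _, he⟩ := h
  have hs : (lat d).s e = e.1 := rfl
  have ht : (lat d).t e = e.1 + ev e.2 := rfl
  rw [hs, ht] at he
  rw [nm_le_iff']
  intro j
  have h1 := natAbs_le_nm (a - v) j
  rcases he with ⟨rfl, rfl⟩ | ⟨rfl, rfl⟩
  · by_cases hj : j = e.2
    · subst hj
      simp only [ev, Pi.sub_apply, Pi.add_apply, Pi.single_eq_same] at h1 ⊢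
      omega
    · simp only [ev, Pi.sub_apply, Pi.add_apply, Pi.single_eq_of_ne hj] at h1 ⊢
      omega
  · by_cases hj : j = e.2
    · subst hj
      simp only [ev, Pi.sub_apply, Pi.add_apply, Pi.single_eq_same] at h1 ⊢
      omega
    · simp only [ev, Pi.sub_apply, Pi.add_apply, Pi.single_eq_of_ne hj] at h1 ⊢
      omega

end Aux347

/-- an even-degree count: `bd η v` as a cardinality -/
theorem bd_eq_card (η : Finset (Ed d)) (v : Vt d) :
    (lat d).bd η v = ((η.filter (fun e => e.1 = v ∨ e.1 + ev e.2 = v)).card : ZMod 2) := by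
  unfold MG.bd
  rw [Finset.sum_apply, Finset.card_filter, Nat.cast_sum]
  apply Finset.sum_congr rfl
  intro e _
  rw [Aux347.inc_apply]
  split_ifs <;> simp

/-- lattice paths: two vertices of a box are joined inside the box by few edges -/
theorem exists_path {n : ℕ} {a b : Vt d} (ha : nm a ≤ n) (hb : nm b ≤ n) :
    ∃ η ⊆ EB d n, (lat d).bd η = two a b ∧ η.card ≤ d * nm (a - b) := by
  obtain ⟨η, hη, hbd, hc⟩ := Aux347.path_aux b hb _ a ha rfl
  refine ⟨η, hη, hbd, hc.trans ?_⟩
  calc ∑ i, (a i - b i).natAbs ≤ ∑ _i : Fin d, nm (a - b) :=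
        Finset.sum_le_sum (fun i _ => Aux347.natAbs_le_nm (a - b) i)
    _ = d * nm (a - b) := by simp

/-- a connection from `a` to `b` in `ω` passes through every sup-sphere around `v` separating
them -/
theorem exists_on_sphere {ω : Finset (Ed d)} {a b v : Vt d} {r : ℕ} (h : (lat d).Cn ω a b)
    (ha : nm (a - v) ≤ r) (hb : r ≤ nm (b - v)) :
    ∃ u, nm (u - v) = r ∧ (lat d).Cn (ω.filter (fun e => nm (e.1 - v) ≤ r ∧
      nm (e.1 + ev e.2 - v) ≤ r)) a u := by
  unfold MG.Cn at h
  induction h using Relation.ReflTransGen.head_induction_on with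
  | refl => exact ⟨b, le_antisymm ha hb, Relation.ReflTransGen.refl⟩
  | head hac _ ih =>
    rename_i a c _
    by_cases hr : nm (a - v) = r
    · exact ⟨a, hr, Relation.ReflTransGen.refl⟩
    · have h1 := Aux347.adj_nm (v := v) hac
      have hc : nm (c - v) ≤ r := by omega
      obtain ⟨u, hu, hcu⟩ := ih hc
      refine ⟨u, hu, Relation.ReflTransGen.head ?_ hcu⟩
      obtain ⟨e, he, hec⟩ := hac
      refine ⟨e, ?_, hec⟩
      rw [Finset.mem_filter]
      refine ⟨he, ?_⟩
      have hs : (lat d).s e = e.1 := rfl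
      have ht : (lat d).t e = e.1 + ev e.2 := rfl
      rw [hs, ht] at hec
      rcases hec with ⟨h2, h3⟩ | ⟨h2, h3⟩
      · rw [h3, h2]
        exact ⟨ha, hc⟩
      · rw [h3, h2]
        exact ⟨hc, ha⟩

end Pool.Agent.TH981.LO
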