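import Mathlib

set_option autoImplicit false

open Finset Module
open scoped MatrixOrder

namespace Pool.Agent.TH58.SN

/-- a positive semidefinite real matrix is a Gram matrix -/
theorem gram_of_psd {S : Type} [Fintype S] [DecidableEq S] (M : Matrix S S ℝ)
    (h1 : ∀ x y, M x y = M y x) (h2 : ∀ f : S → ℝ, 0 ≤ ∑ x, ∑ y, f x * M x y * f y) :
    ∃ w : S → S → ℝ, ∀ x y, ∑ i, w x i * w y i = M x y := by
  classical
  have hM : M.PosSemidef := by
    refine Matrix.PosSemidef.of_dotProduct_mulVec_nonneg ?_ ?_
    · ext x y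
      simp [h1 y x]
    · intro f
      have := h2 f
      simp only [dotProduct, Matrix.mulVec, Pi.star_apply, star_trivial]
      calc (0 : ℝ) ≤ _ := this
        _ = _ := by
          refine Finset.sum_congr rfl fun x _ => ?_
          rw [Finset.mul_sum]
          refine Finset.sum_congr rfl fun y _ => ?_
          ring
  obtain ⟨B, hB⟩ := CStarAlgebra.nonneg_iff_eq_star_mul_self.mp hM.nonneg
  refine ⟨fun x i => B i x, fun x y => ?_⟩
  rw [hB]
  simp [Matrix.mul_apply, Matrix.star_eq_conjTranspose]

end Pool.Agent.TH58.SN
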