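import Mathlib

set_option autoImplicit false

open Finset Module

namespace Pool.Agent.TH58.SN

set_option linter.unusedSectionVars false

variable {p : ℕ} [Fact p.Prime] {κ : Type} [Fintype κ] [DecidableEq κ]

/-- the diagonal bilinear form with coefficients D -/
def bf (D : κ → ZMod p) (x y : κ → ZMod p) : ZMod p := ∑ i, D i * (x i * y i)

theorem bf_comm (D : κ → ZMod p) (x y : κ → ZMod p) : bf D x y = bf D y x := by
  unfold bf
  exact Finset.sum_congr rfl fun i _ => by ring

theorem bf_smul (D : κ → ZMod p) (a : ZMod p) (x y : κ → ZMod p) :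
    bf D x (a • y) = a * bf D x y := by
  unfold bf
  rw [Finset.mul_sum]
  exact Finset.sum_congr rfl fun i _ => by simp; ring

/-- the functional u ↦ B(x,u) -/
def fl (D : κ → ZMod p) (x : κ → ZMod p) : (κ → ZMod p) →ₗ[ZMod p] ZMod p where
  toFun u := bf D x u
  map_add' u v := by
    unfold bf
    rw [← Finset.sum_add_distrib]
    exact Finset.sum_congr rfl fun i _ => by simp; ring
  map_smul' a u := by
    simpa using bf_smul D a x u

theorem fl_apply (D : κ → ZMod p) (x u : κ → ZMod p) : fl D x u = bf D x u := rfl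

/-- the number of zeros of a nonzero functional -/
theorem card_ker {V : Type} [AddCommGroup V] [Module (ZMod p) V] [Finite V]
    (f : V →ₗ[ZMod p] ZMod p) (hf : f ≠ 0) : 
    Nat.card (LinearMap.ker f) * p = Nat.card V := by
  have h1 := Module.Dual.finrank_ker_add_one_of_ne_zero (f := f) hf
  rw [Module.natCard_eq_pow_finrank (K := ZMod p) (V := V),
    Module.natCard_eq_pow_finrank (K := ZMod p) (V := LinearMap.ker f), ← h1, Nat.card_zmod, pow_succ]

theorem bf_single (D : κ → ZMod p) (x : κ → ZMod p) (i : κ) :
    bf D x (Pi.single i 1) = D i * x i := by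
  unfold bf
  rw [Finset.sum_eq_single i]
  · simp
  · intro j _ hj
    simp [hj]
  · simp

/-- number of u orthogonal to x -/
theorem count1 (D : κ → ZMod p) (x : κ → ZMod p) (hx : bf D x x = 1) :
    (univ.filter fun u : κ → ZMod p => bf D x u = 0).card * p = p ^ Fintype.card κ := by
  have hf : fl D x ≠ 0 := by
    intro h
    have : fl D x x = 0 := by rw [h]; rfl
    rw [fl_apply, hx] at this
    exact one_ne_zero this
  have h := card_ker (fl D x) hf
  have h2 : Nat.card (LinearMap.ker (fl D x)) =
      (univ.filter fun u : κ → ZMod p => bf D x u = 0).card := by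
    rw [← Fintype.card_subtype, ← Nat.card_eq_fintype_card]
    exact Nat.card_congr (Equiv.subtypeEquivRight fun u => by rw [LinearMap.mem_ker, fl_apply])
  rw [h2] at h
  rw [h]
  simp [Nat.card_eq_fintype_card]

/-- number of u orthogonal to two different directions -/
theorem count2 (D : κ → ZMod p) (hD : ∀ i, D i ≠ 0) (x y : κ → ZMod p) (hx : bf D x x = 1)
    (hy : bf D y y = 1) (h1 : y ≠ x) (h2 : y ≠ -x) :
    (univ.filter fun u : κ → ZMod p => bf D x u = 0 ∧ bf D y u = 0).card * p ^ 2 =
      p ^ Fintype.card κ := by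
  have hfx : fl D x ≠ 0 := by
    intro h
    have : fl D x x = 0 := by rw [h]; rfl
    rw [fl_apply, hx] at this
    exact one_ne_zero this
  set W := LinearMap.ker (fl D x) with hW
  let g : W →ₗ[ZMod p] ZMod p := (fl D y).comp W.subtype
  have hg : g ≠ 0 := by
    intro h
    have key : ∀ u, bf D y u = bf D x u * bf D y x := by
      intro u
      have hm : u - bf D x u • x ∈ W := by
        rw [hW, LinearMap.mem_ker, map_sub, map_smul, fl_apply, fl_apply, hx]
        simp
      have h3 : g ⟨_, hm⟩ = 0 := by rw [h]; rfl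
      have h4 : fl D y (u - bf D x u • x) = 0 := h3
      rw [map_sub, map_smul, fl_apply, fl_apply, sub_eq_zero] at h4
      rw [h4, smul_eq_mul]
    have h5 : ∀ i, y i = bf D y x * x i := by
      intro i
      have h6 := key (Pi.single i 1)
      rw [bf_single, bf_single] at h6
      have h7 : D i * (y i - bf D y x * x i) = 0 := by
        rw [mul_sub, h6]
        ring
      rcases mul_eq_zero.mp h7 with h8 | h8
      · exact absurd h8 (hD i)
      · exact sub_eq_zero.mp h8
    have h6 := key y
    rw [hy, bf_comm D x y] at h6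
    have h7 : bf D y x = 1 ∨ bf D y x = -1 := by
      have : (bf D y x - 1) * (bf D y x + 1) = 0 := by
        ring_nf
        rw [pow_two, ← h6]
        ring
      rcases mul_eq_zero.mp this with h | h
      · left; exact sub_eq_zero.mp h
      · right; exact eq_neg_of_add_eq_zero_left h
    rcases h7 with h7 | h7
    · apply h1
      funext i
      rw [h5 i, h7, one_mul]
    · apply h2
      funext i
      rw [h5 i, h7]
      simp
  have ha := card_ker (fl D x) hfx
  have hb := card_ker g hg
  have h2 : Nat.card (LinearMap.ker g) =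
      (univ.filter fun u : κ → ZMod p => bf D x u = 0 ∧ bf D y u = 0).card := by
    rw [← Fintype.card_subtype, ← Nat.card_eq_fintype_card]
    refine Nat.card_congr ⟨fun u => ⟨u.1.1, ?_, ?_⟩, fun u => ⟨⟨u.1, ?_⟩, ?_⟩, ?_, ?_⟩
    · have h3 : (u.1.1 : κ → ZMod p) ∈ LinearMap.ker (fl D x) := u.1.2
      rw [LinearMap.mem_ker, fl_apply] at h3
      exact h3
    · have h3 : g u.1 = 0 := LinearMap.mem_ker.mp u.2
      exact h3
    · show u.1 ∈ LinearMap.ker (fl D x)
      rw [LinearMap.mem_ker, fl_apply]
      exact u.2.1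
    · rw [LinearMap.mem_ker]
      exact u.2.2
    · intro u
      rfl
    · intro u
      rfl
  rw [h2] at hb
  rw [pow_two, ← mul_assoc, hb, ha]
  simp [Nat.card_eq_fintype_card]

/-- at most two square roots -/
theorem card_sq_le (e : ZMod p) : (univ.filter fun a : ZMod p => a ^ 2 = e).card ≤ 2 := by
  by_cases h : ∃ a0 : ZMod p, a0 ^ 2 = e
  · obtain ⟨a0, h0⟩ := h
    refine le_trans (Finset.card_le_card (t := {a0, -a0}) ?_) Finset.card_le_two
    intro a ha
    rw [Finset.mem_filter] at ha
    have : a ^ 2 = a0 ^ 2 := by rw [ha.2, h0]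
    rcases sq_eq_sq_iff_eq_or_eq_neg.mp this with h | h
    · simp [h]
    · simp [h]
  · have : (univ.filter fun a : ZMod p => a ^ 2 = e) = ∅ := by
      rw [Finset.filter_eq_empty_iff]
      intro a _ ha
      exact h ⟨a, ha⟩
    rw [this]
    simp

end Pool.Agent.TH58.SN
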