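import Pool.Agent.TH58.SN1
import Pool.Agent.TH58.SN2

set_option autoImplicit false

open Finset Module

namespace Pool.Agent.TH58.SN

set_option linter.unusedSectionVars false

variable {p : ℕ} [Fact p.Prime] {κ : Type} [Fintype κ] [DecidableEq κ]

/-- the quadric B(x,x) = 1 -/
abbrev Sp (D : κ → ZMod p) : Type := {x : κ → ZMod p // bf D x x = 1}

/-- indicator of orthogonality -/
noncomputable def ind (D : κ → ZMod p) (x u : κ → ZMod p) : ℝ := if bf D x u = 0 then 1 else 0

theorem ind_comm (D : κ → ZMod p) (x u : κ → ZMod p) : ind D x u = ind D u x := by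
  unfold ind
  rw [bf_comm]

theorem bf_neg (D : κ → ZMod p) (x y : κ → ZMod p) : bf D x (-y) = - bf D x y := by
  have := bf_smul D (-1) x y
  simpa using this

theorem bf_neg_neg (D : κ → ZMod p) (x : κ → ZMod p) : bf D (-x) (-x) = bf D x x := by
  rw [bf_neg, bf_comm, bf_neg, neg_neg]

/-- negation on the quadric -/
def ng (D : κ → ZMod p) : Sp D ≃ Sp D where
  toFun x := ⟨-x.1, by rw [bf_neg_neg]; exact x.2⟩
  invFun x := ⟨-x.1, by rw [bf_neg_neg]; exact x.2⟩
  left_inv x := by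
    ext1
    simp
  right_inv x := by
    ext1
    simp

theorem ind_smul (D : κ → ZMod p) (a : ZMod p) (ha : a ≠ 0) (x u : κ → ZMod p) :
    ind D x (a • u) = ind D x u := by
  unfold ind
  rw [bf_smul]
  simp [ha]

theorem ng_ne (hp : 2 < p) (D : κ → ZMod p) (x : Sp D) : ng D x ≠ x := by
  intro h
  have h1 : (-x.1 : κ → ZMod p) = x.1 := congrArg Subtype.val h
  have h2 : bf D x.1 (-x.1) = bf D x.1 x.1 := by rw [h1]
  rw [bf_neg, x.2] at h2
  have h3 : (2 : ZMod p) = 0 := by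
    have : (1 : ZMod p) + 1 = 0 := by
      nth_rewrite 1 [← h2]
      ring
    rw [← this]
    norm_num
  have h4 : ((2 : ℕ) : ZMod p) = 0 := by exact_mod_cast h3
  rw [ZMod.natCast_eq_zero_iff] at h4
  exact absurd (Nat.le_of_dvd (by norm_num) h4) (by omega)

theorem p_pos : (0 : ℝ) < (p : ℝ) := by
  exact_mod_cast (Fact.out : p.Prime).pos

theorem sum_ind (D : κ → ZMod p) (x : Sp D) :
    ∑ u : κ → ZMod p, ind D x.1 u = (p : ℝ) ^ Fintype.card κ / p := by
  have h := count1 D x.1 x.2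
  have h1 : ∑ u : κ → ZMod p, ind D x.1 u =
      ((univ.filter fun u : κ → ZMod p => bf D x.1 u = 0).card : ℝ) := by
    unfold ind
    rw [Finset.sum_boole]
  rw [h1, eq_div_iff p_pos.ne']
  exact_mod_cast h

theorem ind_ng (D : κ → ZMod p) (x : Sp D) (u : κ → ZMod p) :
    ind D (ng D x).1 u = ind D x.1 u := by
  have : ((ng D x).1 : κ → ZMod p) = (-1 : ZMod p) • x.1 := by
    simp [ng]
  rw [this, ind_comm, ind_smul D (-1) (neg_ne_zero.mpr one_ne_zero), ind_comm]

theorem ind_mul_self (D : κ → ZMod p) (x u : κ → ZMod p) : ind D x u * ind D x u = ind D x u := by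
  unfold ind
  split_ifs <;> simp

theorem sum_ind_ind (hp : 2 < p) (D : κ → ZMod p) (hD : ∀ i, D i ≠ 0) (x y : Sp D) :
    ∑ u : κ → ZMod p, ind D x.1 u * ind D y.1 u =
      (p : ℝ) ^ Fintype.card κ / p ^ 2 +
        ((p : ℝ) ^ Fintype.card κ / p - (p : ℝ) ^ Fintype.card κ / p ^ 2) *
          ((if y = x then 1 else 0) + (if y = ng D x then 1 else 0)) := by
  by_cases h1 : y = x
  · subst h1
    have h2 : y ≠ ng D y := (ng_ne hp D y).symm
    simp only [ind_mul_self, sum_ind, if_true, if_neg h2]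
    ring
  · by_cases h2 : y = ng D x
    · subst h2
      simp only [ind_ng, ind_mul_self, sum_ind, if_true, if_neg h1]
      ring
    · rw [if_neg h1, if_neg h2]
      have h3 := count2 D hD x.1 y.1 x.2 y.2 (fun h => h1 (Subtype.ext h))
        (fun h => h2 (Subtype.ext h))
      have h4 : ∑ u : κ → ZMod p, ind D x.1 u * ind D y.1 u =
          ((univ.filter fun u : κ → ZMod p => bf D x.1 u = 0 ∧ bf D y.1 u = 0).card : ℝ) := by
        rw [← Finset.sum_boole]
        refine Finset.sum_congr rfl fun u _ => ?_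
        unfold ind
        by_cases ha : bf D x.1 u = 0 <;> by_cases hb : bf D y.1 u = 0 <;> simp [ha, hb]
      rw [h4]
      have h5 : ((univ.filter fun u : κ → ZMod p => bf D x.1 u = 0 ∧ bf D y.1 u = 0).card : ℝ) =
          (p : ℝ) ^ Fintype.card κ / p ^ 2 := by
        rw [eq_div_iff (pow_pos p_pos 2).ne']
        exact_mod_cast h3
      rw [h5]
      ring

/-- deviation function -/
noncomputable def G (D : κ → ZMod p) (f : Sp D → ℝ) (u : κ → ZMod p) : ℝ :=
  ∑ x : Sp D, f x * ind D x.1 u - (∑ x, f x) / p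

theorem G_smul (D : κ → ZMod p) (f : Sp D → ℝ) (a : ZMod p) (ha : a ≠ 0) (u : κ → ZMod p) :
    G D f (a • u) = G D f u := by
  unfold G
  simp only [ind_smul D a ha]

/-- total square of G -/
theorem sum_G_sq (hp : 2 < p) (D : κ → ZMod p) (hD : ∀ i, D i ≠ 0) (f : Sp D → ℝ) :
    ∑ u : κ → ZMod p, G D f u ^ 2 ≤
      2 * ((p : ℝ) ^ Fintype.card κ / p - (p : ℝ) ^ Fintype.card κ / p ^ 2) * ∑ x, f x ^ 2 := by
  set Q : ℝ := (p : ℝ) ^ Fintype.card κ with hQ
  set T : ℝ := ∑ x, f x with hT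
  have hp0 : (0 : ℝ) < p := p_pos
  have e1 : ∀ u : κ → ZMod p, G D f u ^ 2 =
      ∑ x : Sp D, ∑ y : Sp D, f x * f y * (ind D x.1 u * ind D y.1 u) -
        2 * (T / p) * ∑ x : Sp D, f x * ind D x.1 u + (T / p) ^ 2 := by
    intro u
    unfold G
    rw [sub_sq, ← hT, pow_two (∑ x : Sp D, f x * ind D x.1 u), Finset.sum_mul_sum]
    have : ∑ x : Sp D, ∑ y : Sp D, f x * ind D x.1 u * (f y * ind D y.1 u) =
        ∑ x : Sp D, ∑ y : Sp D, f x * f y * (ind D x.1 u * ind D y.1 u) :=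
      Finset.sum_congr rfl fun x _ => Finset.sum_congr rfl fun y _ => by ring
    rw [this]
    ring
  have e2 : ∑ u : κ → ZMod p, ∑ x : Sp D, ∑ y : Sp D, f x * f y * (ind D x.1 u * ind D y.1 u) =
      Q / p ^ 2 * T ^ 2 + (Q / p - Q / p ^ 2) * ∑ x, f x * (f x + f (ng D x)) := by
    rw [Finset.sum_comm]
    have : ∀ x : Sp D, ∑ u : κ → ZMod p, ∑ y : Sp D, f x * f y * (ind D x.1 u * ind D y.1 u) =
        Q / p ^ 2 * (f x * T) + (Q / p - Q / p ^ 2) * (f x * (f x + f (ng D x))) := by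
      intro x
      rw [Finset.sum_comm]
      have h3 : ∀ y : Sp D, ∑ u : κ → ZMod p, f x * f y * (ind D x.1 u * ind D y.1 u) =
          Q / p ^ 2 * (f x * f y) + (Q / p - Q / p ^ 2) * (f x *
            ((if y = x then f y else 0) + (if y = ng D x then f y else 0))) := by
        intro y
        rw [← Finset.mul_sum, sum_ind_ind hp D hD x y, ← hQ]
        split_ifs <;> ring
      rw [Finset.sum_congr rfl fun y _ => h3 y, Finset.sum_add_distrib, ← Finset.mul_sum,
        ← Finset.mul_sum, ← Finset.mul_sum, ← Finset.mul_sum, Finset.sum_add_distrib,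
        Finset.sum_ite_eq' univ x f, Finset.sum_ite_eq' univ (ng D x) f]
      simp only [Finset.mem_univ, if_true, ← hT]
    rw [Finset.sum_congr rfl fun x _ => this x, Finset.sum_add_distrib, ← Finset.mul_sum,
      ← Finset.mul_sum, ← Finset.sum_mul, ← hT]
    ring
  have e3 : ∑ u : κ → ZMod p, ∑ x : Sp D, f x * ind D x.1 u = Q / p * T := by
    rw [Finset.sum_comm]
    have : ∀ x : Sp D, ∑ u : κ → ZMod p, f x * ind D x.1 u = Q / p * f x := by
      intro x
      rw [← Finset.mul_sum, sum_ind, ← hQ]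
      ring
    rw [Finset.sum_congr rfl fun x _ => this x, ← Finset.mul_sum, ← hT]
  have e4 : ∑ u : κ → ZMod p, G D f u ^ 2 =
      (Q / p - Q / p ^ 2) * ∑ x, f x * (f x + f (ng D x)) := by
    rw [Finset.sum_congr rfl fun u _ => e1 u, Finset.sum_add_distrib, Finset.sum_sub_distrib, e2,
      ← Finset.mul_sum, e3, Finset.sum_const, Finset.card_univ, nsmul_eq_mul]
    have : ((Fintype.card (κ → ZMod p) : ℕ) : ℝ) = Q := by
      rw [hQ, Fintype.card_fun, ZMod.card]
      push_cast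
      rfl
    rw [this]
    field_simp
    ring
  have e5 : ∑ x, f x * (f x + f (ng D x)) ≤ 2 * ∑ x, f x ^ 2 := by
    have h1 : ∑ x, f (ng D x) ^ 2 = ∑ x, f x ^ 2 :=
      Equiv.sum_comp (ng D) (fun x => f x ^ 2)
    have h2 : ∀ x, f x * (f x + f (ng D x)) ≤ f x ^ 2 + (f x ^ 2 + f (ng D x) ^ 2) / 2 := by
      intro x
      nlinarith [sq_nonneg (f x - f (ng D x))]
    calc ∑ x, f x * (f x + f (ng D x)) ≤ ∑ x, (f x ^ 2 + (f x ^ 2 + f (ng D x) ^ 2) / 2) :=
          Finset.sum_le_sum fun x _ => h2 x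
      _ = 2 * ∑ x, f x ^ 2 := by
          rw [Finset.sum_add_distrib, ← Finset.sum_div, Finset.sum_add_distrib, h1]
          ring
  have hQ0 : 0 < Q := pow_pos hp0 _
  have e6 : 0 ≤ Q / p - Q / p ^ 2 := by
    have h1 : (1 : ℝ) ≤ p := by
      exact_mod_cast (Fact.out : p.Prime).one_lt.le
    rw [sub_nonneg]
    apply div_le_div_of_nonneg_left hQ0.le hp0
    nlinarith
  rw [e4]
  nlinarith [mul_le_mul_of_nonneg_left e5 e6]

end Pool.Agent.TH58.SN
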