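import Pool.Agent.TH58.SN3

set_option autoImplicit false

open Finset Module

namespace Pool.Agent.TH58.SN

set_option linter.unusedSectionVars false

variable {p : ℕ} [Fact p.Prime] {κ : Type} [Fintype κ] [DecidableEq κ]

theorem sum_comp_le {A B : Type} [Fintype A] [Fintype B] [DecidableEq B] (φ : A → B) (h : B → ℝ)
    (hh : ∀ b, 0 ≤ h b) (m : ℕ) (hm : ∀ b, (univ.filter fun a => φ a = b).card ≤ m) :
    ∑ a, h (φ a) ≤ m * ∑ b, h b := by
  rw [← Finset.sum_fiberwise (s := univ) (g := φ) (f := fun a => h (φ a)), Finset.mul_sum]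
  refine Finset.sum_le_sum fun b _ => ?_
  have : ∑ a ∈ univ.filter (fun a => φ a = b), h (φ a) =
      ∑ a ∈ univ.filter (fun a => φ a = b), h b :=
    Finset.sum_congr rfl fun a ha => by rw [(Finset.mem_filter.mp ha).2]
  rw [this, Finset.sum_const, nsmul_eq_mul]
  exact mul_le_mul_of_nonneg_right (by exact_mod_cast hm b) (hh b)

theorem sum_G_sphere (D : κ → ZMod p) (f : Sp D → ℝ) :
    ((p : ℝ) - 1) * ∑ x : Sp D, G D f x.1 ^ 2 ≤ 2 * ∑ u : κ → ZMod p, G D f u ^ 2 := by
  have h1 := sum_comp_le (A := (ZMod p)ˣ × Sp D) (B := κ → ZMod p)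
    (fun a => (a.1 : ZMod p) • a.2.1) (fun u => G D f u ^ 2) (fun u => sq_nonneg _) 2 ?_
  · rw [Fintype.sum_prod_type] at h1
    have h2 : ∀ α : (ZMod p)ˣ, ∑ x : Sp D, G D f ((α : ZMod p) • x.1) ^ 2 =
        ∑ x : Sp D, G D f x.1 ^ 2 := by
      intro α
      refine Finset.sum_congr rfl fun x _ => ?_
      rw [G_smul D f _ α.ne_zero]
    rw [Finset.sum_congr rfl fun α _ => h2 α, Finset.sum_const, Finset.card_univ,
      ZMod.card_units, nsmul_eq_mul, Nat.cast_sub (Fact.out : p.Prime).one_lt.le] at h1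
    simpa using h1
  · intro u
    refine le_trans (Finset.card_le_card_of_injOn (fun a => (a.1 : ZMod p)) ?_ ?_)
      (card_sq_le (bf D u u))
    · intro a ha
      have ha' := (Finset.mem_filter.mp ha).2
      simp only [Finset.coe_filter, Finset.mem_univ, true_and, Set.mem_setOf_eq]
      rw [← ha', bf_smul, bf_comm, bf_smul, a.2.2]
      ring
    · intro a ha b hb hab
      have ha' := (Finset.mem_filter.mp ha).2
      have hb' := (Finset.mem_filter.mp hb).2
      have h3 : a.1 = b.1 := Units.ext hab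
      have h4 : (a.1 : ZMod p) • a.2.1 = (a.1 : ZMod p) • b.2.1 := by
        rw [ha', h3, hb']
      have h5 : a.2.1 = b.2.1 := smul_right_injective _ a.1.ne_zero h4
      exact Prod.ext h3 (Subtype.ext h5)

/-- the parameter lambda -/
noncomputable def lam (p N : ℕ) : ℝ := 2 * Real.sqrt ((p : ℝ) ^ N / p ^ 2)

theorem lam_pos (N : ℕ) : 0 < lam p N := by
  have hp0 : (0 : ℝ) < p := p_pos
  unfold lam
  positivity

theorem lam_sq (N : ℕ) : lam p N ^ 2 = 4 * ((p : ℝ) ^ N / p ^ 2) := by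
  have hp0 : (0 : ℝ) < p := p_pos
  unfold lam
  rw [mul_pow, Real.sq_sqrt (by positivity)]
  norm_num

theorem form_lower (hp : 2 < p) (D : κ → ZMod p) (hD : ∀ i, D i ≠ 0) (f : Sp D → ℝ) :
    (∑ x, f x) ^ 2 / p - lam p (Fintype.card κ) * ∑ x, f x ^ 2 ≤
      ∑ x : Sp D, ∑ y : Sp D, f x * f y * ind D x.1 y.1 := by
  set Q : ℝ := (p : ℝ) ^ Fintype.card κ with hQ
  set L := lam p (Fintype.card κ) with hL
  have hp0 : (0 : ℝ) < p := p_pos
  have hp1 : (0 : ℝ) < (p : ℝ) - 1 := by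
    have : (1 : ℝ) < p := by exact_mod_cast (Fact.out : p.Prime).one_lt
    linarith
  have hL0 : 0 < L := lam_pos _
  have hL2 : L ^ 2 = 4 * (Q / p ^ 2) := lam_sq _
  have h1 := sum_G_sq hp D hD f
  have h2 := sum_G_sphere D f
  have h3 : ∑ x : Sp D, G D f x.1 ^ 2 ≤ L ^ 2 * ∑ x, f x ^ 2 := by
    have h4 : ((p : ℝ) - 1) * ∑ x : Sp D, G D f x.1 ^ 2 ≤
        ((p : ℝ) - 1) * (L ^ 2 * ∑ x, f x ^ 2) := by
      rw [hL2]
      have h5 : Q / p - Q / p ^ 2 = ((p : ℝ) - 1) * (Q / p ^ 2) := by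
        field_simp
      rw [← hQ, h5] at h1
      calc _ ≤ _ := h2
        _ ≤ _ := mul_le_mul_of_nonneg_left h1 (by norm_num)
        _ = _ := by ring
    exact le_of_mul_le_mul_left h4 hp1
  have h6 : ∑ x : Sp D, ∑ y : Sp D, f x * f y * ind D x.1 y.1 =
      (∑ x, f x) ^ 2 / p + ∑ x : Sp D, f x * G D f x.1 := by
    have : ∀ x : Sp D, ∑ y : Sp D, f x * f y * ind D x.1 y.1 =
        f x * G D f x.1 + f x * ((∑ x, f x) / p) := by
      intro x
      unfold G
      have h7 : ∑ y : Sp D, f x * f y * ind D x.1 y.1 = f x * ∑ y : Sp D, f y * ind D y.1 x.1 := by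
        rw [Finset.mul_sum]
        exact Finset.sum_congr rfl fun y _ => by rw [ind_comm D x.1 y.1]; ring
      rw [h7]
      ring
    rw [Finset.sum_congr rfl fun x _ => this x, Finset.sum_add_distrib, ← Finset.sum_mul]
    ring
  have h8 : - (L * ∑ x, f x ^ 2) ≤ ∑ x : Sp D, f x * G D f x.1 := by
    have h9 : ∀ x : Sp D, -(L / 2 * f x ^ 2 + 1 / (2 * L) * G D f x.1 ^ 2) ≤ f x * G D f x.1 := by
      intro x
      have : 0 ≤ 1 / (2 * L) * (L * f x + G D f x.1) ^ 2 := by positivity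
      have h10 : 1 / (2 * L) * (L * f x + G D f x.1) ^ 2 =
          L / 2 * f x ^ 2 + f x * G D f x.1 + 1 / (2 * L) * G D f x.1 ^ 2 := by
        field_simp
        ring
      linarith
    calc - (L * ∑ x, f x ^ 2) ≤
        -(L / 2 * ∑ x, f x ^ 2 + 1 / (2 * L) * ∑ x : Sp D, G D f x.1 ^ 2) := by
          have h11 : 1 / (2 * L) * ∑ x : Sp D, G D f x.1 ^ 2 ≤
              1 / (2 * L) * (L ^ 2 * ∑ x, f x ^ 2) :=
            mul_le_mul_of_nonneg_left h3 (by positivity)
          have h12 : 1 / (2 * L) * (L ^ 2 * ∑ x, f x ^ 2) = L / 2 * ∑ x, f x ^ 2 := by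
            field_simp
          rw [h12] at h11
          linarith
      _ = ∑ x : Sp D, -(L / 2 * f x ^ 2 + 1 / (2 * L) * G D f x.1 ^ 2) := by
          rw [Finset.sum_neg_distrib, Finset.sum_add_distrib, ← Finset.mul_sum, ← Finset.mul_sum]
      _ ≤ _ := Finset.sum_le_sum fun x _ => h9 x
  rw [h6]
  linarith

/-- vectors on the quadric: unit, orthogonal unless B = 0, large sum -/
theorem vectors (hp : 2 < p) (D : κ → ZMod p) (hD : ∀ i, D i ≠ 0) :
    ∃ w : Sp D → EuclideanSpace ℝ (Sp D), (∀ x, ‖w x‖ = 1) ∧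
      (∀ x y : Sp D, x ≠ y → bf D x.1 y.1 ≠ 0 → inner ℝ (w x) (w y) = 0) ∧
      (Fintype.card (Sp D) : ℝ) ^ 2 / (p * lam p (Fintype.card κ)) ≤ ‖∑ x, w x‖ ^ 2 := by
  classical
  set L := lam p (Fintype.card κ) with hL
  have hL0 : 0 < L := lam_pos _
  have hself : ∀ x : Sp D, ind D x.1 x.1 = 0 := by
    intro x
    unfold ind
    rw [x.2]
    simp
  let M : Matrix (Sp D) (Sp D) ℝ := fun x y => (if x = y then 1 else 0) + ind D x.1 y.1 / L
  obtain ⟨w, hw⟩ := gram_of_psd M (fun x y => by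
    simp only [M, eq_comm, ind_comm D x.1 y.1]) (fun f => by
    have h1 := form_lower hp D hD f
    have h2 : ∑ x : Sp D, ∑ y : Sp D, f x * M x y * f y =
        ∑ x, f x ^ 2 + (∑ x : Sp D, ∑ y : Sp D, f x * f y * ind D x.1 y.1) / L := by
      rw [Finset.sum_div, ← Finset.sum_add_distrib]
      refine Finset.sum_congr rfl fun x _ => ?_
      have : ∀ y : Sp D, f x * M x y * f y =
          (if x = y then f x * f y else 0) + f x * f y * ind D x.1 y.1 / L := by
        intro y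
        simp only [M]
        split_ifs <;> ring
      rw [Finset.sum_congr rfl fun y _ => this y, Finset.sum_add_distrib, Finset.sum_ite_eq,
        ← Finset.sum_div]
      simp only [Finset.mem_univ, if_true]
      ring
    rw [h2]
    have h3 : 0 ≤ (∑ x, f x) ^ 2 / p := by
      have : (0 : ℝ) < p := p_pos
      positivity
    have h4 : - ∑ x, f x ^ 2 ≤ (∑ x : Sp D, ∑ y : Sp D, f x * f y * ind D x.1 y.1) / L := by
      rw [le_div_iff₀ hL0]
      linarith
    linarith)
  let v : Sp D → EuclideanSpace ℝ (Sp D) := fun x => WithLp.toLp 2 (w x)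
  have hin : ∀ x y, inner ℝ (v x) (v y) = M x y := by
    intro x y
    rw [PiLp.inner_apply, ← hw x y]
    refine Finset.sum_congr rfl fun i _ => ?_
    simp [v]
    ring
  refine ⟨v, ?_, ?_, ?_⟩
  · intro x
    have h1 : inner ℝ (v x) (v x) = (1 : ℝ) := by
      rw [hin]
      simp [M, hself]
    rw [real_inner_self_eq_norm_sq] at h1
    have h2 : 0 ≤ ‖v x‖ := norm_nonneg _
    nlinarith
  · intro x y hxy hb
    rw [hin]
    simp [M, hxy, ind, hb]
  · rw [← real_inner_self_eq_norm_sq, sum_inner]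
    have h1 : ∀ x, inner ℝ (v x) (∑ y, v y) = ∑ y, M x y := by
      intro x
      rw [inner_sum]
      exact Finset.sum_congr rfl fun y _ => hin x y
    rw [Finset.sum_congr rfl fun x _ => h1 x]
    have h2 := form_lower hp D hD (fun _ => (1 : ℝ))
    have h3 : ∑ x : Sp D, ∑ y : Sp D, M x y = (Fintype.card (Sp D) : ℝ) +
        (∑ x : Sp D, ∑ y : Sp D, (1 : ℝ) * 1 * ind D x.1 y.1) / L := by
      rw [Finset.sum_div]
      have h4 : (Fintype.card (Sp D) : ℝ) = ∑ x : Sp D, (1 : ℝ) := by simp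
      rw [h4, ← Finset.sum_add_distrib]
      refine Finset.sum_congr rfl fun x _ => ?_
      simp only [M]
      rw [Finset.sum_add_distrib, Finset.sum_ite_eq, ← Finset.sum_div]
      simp
    rw [h3]
    simp only [Finset.sum_const, Finset.card_univ, nsmul_eq_mul, mul_one, one_pow] at h2
    have h5 : ((Fintype.card (Sp D) : ℝ) ^ 2 / p - L * Fintype.card (Sp D)) / L ≤
        (∑ x : Sp D, ∑ y : Sp D, (1 : ℝ) * 1 * ind D x.1 y.1) / L := by
      apply div_le_div_of_nonneg_right _ hL0.le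
      simpa using h2
    have h6 : ((Fintype.card (Sp D) : ℝ) ^ 2 / p - L * Fintype.card (Sp D)) / L =
        (Fintype.card (Sp D) : ℝ) ^ 2 / (p * L) - Fintype.card (Sp D) := by
      have : (0 : ℝ) < p := p_pos
      field_simp
    linarith

end Pool.Agent.TH58.SN
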