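import Pool.Agent.TH58.SN4

set_option autoImplicit false

open Finset Module

namespace Pool.Agent.TH58.SN

set_option linter.unusedSectionVars false

/-- a full set of pairwise B-orthogonal vectors of the quadric forces the discriminant to be a
square -/
theorem disc_square {p : ℕ} [Fact p.Prime] {κ : Type} [Fintype κ] [DecidableEq κ]
    (D : κ → ZMod p) (x : κ → κ → ZMod p) (h1 : ∀ i, bf D (x i) (x i) = 1)
    (h2 : ∀ i j, i ≠ j → bf D (x i) (x j) = 0) : IsSquare (∏ i, D i) := by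
  obtain ⟨X, hX⟩ : ∃ X : Matrix κ κ (ZMod p), ∀ i j, X i j = x i j := ⟨Matrix.of x, fun _ _ => rfl⟩
  have h3 : X * Matrix.diagonal D * X.transpose = 1 := by
    ext i j
    rw [Matrix.mul_apply]
    have : ∑ k, (X * Matrix.diagonal D) i k * X.transpose k j = bf D (x i) (x j) := by
      unfold bf
      refine Finset.sum_congr rfl fun k _ => ?_
      rw [Matrix.mul_diagonal, Matrix.transpose_apply, hX, hX]
      ring
    rw [this]
    by_cases hij : i = j
    · subst hij
      rw [h1, Matrix.one_apply_eq]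
    · rw [h2 i j hij, Matrix.one_apply_ne hij]
  have h4 := congrArg Matrix.det h3
  rw [Matrix.det_mul, Matrix.det_mul, Matrix.det_transpose, Matrix.det_diagonal,
    Matrix.det_one] at h4
  have h5 : X.det ≠ 0 := by
    intro h
    rw [h] at h4
    simp at h4
  refine ⟨X.det⁻¹, ?_⟩
  field_simp
  rw [← h4]
  ring

/-- extension to n vectors of R^n -/
theorem pad {A : Type} [Fintype A] [DecidableEq A] (w : A → EuclideanSpace ℝ A)
    (hu : ∀ x, ‖w x‖ = 1) (k : ℕ) (hk : 2 ≤ k)
    (ho : ∀ s : Finset A, s.card = k → ∃ x ∈ s, ∃ y ∈ s, x ≠ y ∧ inner ℝ (w x) (w y) = 0)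
    (n : ℕ) (hn : Fintype.card A ≤ n) :
    ∃ v : Fin n → EuclideanSpace ℝ (Fin n), (∀ i, ‖v i‖ = 1) ∧
      (∀ s : Finset (Fin n), s.card = k → ∃ i ∈ s, ∃ j ∈ s, i ≠ j ∧ inner ℝ (v i) (v j) = 0) ∧
      ‖∑ x, w x‖ ^ 2 ≤ ‖∑ i, v i‖ ^ 2 := by
  classical
  obtain ⟨r, rfl⟩ := Nat.exists_eq_add_of_le hn
  let e : A ⊕ Fin r ≃ Fin (Fintype.card A + r) :=
    ((Fintype.equivFin A).sumCongr (Equiv.refl (Fin r))).trans finSumFinEquiv
  let v0 : A ⊕ Fin r → EuclideanSpace ℝ (A ⊕ Fin r) :=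
    Sum.elim (fun x => WithLp.toLp 2 (Sum.elim (fun i => w x i) (fun _ => 0)))
      (fun j => WithLp.toLp 2 (Sum.elim (fun _ => 0) (Pi.single j 1)))
  have iLL : ∀ x y, inner ℝ (v0 (Sum.inl x)) (v0 (Sum.inl y)) = inner ℝ (w x) (w y) := by
    intro x y
    rw [PiLp.inner_apply, PiLp.inner_apply, Fintype.sum_sum_type]
    simp [v0]
  have iLR : ∀ x j, inner ℝ (v0 (Sum.inl x)) (v0 (Sum.inr j)) = 0 := by
    intro x y
    rw [PiLp.inner_apply, Fintype.sum_sum_type]
    simp [v0]
  have iRR : ∀ i j, inner ℝ (v0 (Sum.inr i)) (v0 (Sum.inr j)) = if i = j then (1 : ℝ) else 0 := by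
    intro i j
    rw [PiLp.inner_apply, Fintype.sum_sum_type]
    simp [v0, Pi.single_apply, eq_comm]
  let T := LinearIsometryEquiv.piLpCongrLeft 2 ℝ ℝ e
  let v : Fin (Fintype.card A + r) → EuclideanSpace ℝ (Fin (Fintype.card A + r)) :=
    fun i => T (v0 (e.symm i))
  have hv : ∀ i j, inner ℝ (v i) (v j) = inner ℝ (v0 (e.symm i)) (v0 (e.symm j)) := fun i j =>
    T.inner_map_map _ _
  have hself : ∀ a, inner ℝ (v0 a) (v0 a) = (1 : ℝ) := by
    rintro (x | j)
    · rw [iLL, real_inner_self_eq_norm_sq, hu]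
      norm_num
    · rw [iRR, if_pos rfl]
  have horth : ∀ a b, a ≠ b → (∃ j, a = Sum.inr j) → inner ℝ (v0 a) (v0 b) = (0 : ℝ) := by
    rintro a b hab ⟨j, rfl⟩
    rcases b with x | j'
    · rw [real_inner_comm, iLR]
    · rw [iRR, if_neg]
      rintro rfl
      exact hab rfl
  refine ⟨v, ?_, ?_, ?_⟩
  · intro i
    have h1 : inner ℝ (v i) (v i) = (1 : ℝ) := by rw [hv, hself]
    rw [real_inner_self_eq_norm_sq] at h1
    have h2 : 0 ≤ ‖v i‖ := norm_nonneg _
    nlinarith
  · intro s hs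
    by_cases hr : ∃ i ∈ s, ∃ j, e.symm i = Sum.inr j
    · obtain ⟨i, hi, j, hj⟩ := hr
      have : 1 < s.card := by omega
      obtain ⟨i', hi', hne⟩ := Finset.exists_mem_ne this i
      refine ⟨i, hi, i', hi', hne.symm, ?_⟩
      rw [hv]
      exact horth _ _ (fun h => hne.symm (e.symm.injective h)) ⟨j, hj⟩
    · push Not at hr
      have hl : ∀ i ∈ s, ∃ x, e.symm i = Sum.inl x := by
        intro i hi
        rcases h : e.symm i with x | j
        · exact ⟨x, rfl⟩
        · exact absurd h (hr i hi j)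
      let s' : Finset A := univ.filter fun x => e (Sum.inl x) ∈ s
      have hs' : s'.card = k := by
        rw [← hs]
        refine Finset.card_bij (fun x _ => e (Sum.inl x)) ?_ ?_ ?_
        · intro x hx
          exact (Finset.mem_filter.mp hx).2
        · intro x _ y _ hxy
          exact Sum.inl_injective (e.injective hxy)
        · intro i hi
          obtain ⟨x, hx⟩ := hl i hi
          have : e (Sum.inl x) = i := by rw [← hx, e.apply_symm_apply]
          exact ⟨x, Finset.mem_filter.mpr ⟨Finset.mem_univ _, by rw [this]; exact hi⟩, this⟩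
      obtain ⟨x, hx, y, hy, hxy, h0⟩ := ho s' hs'
      refine ⟨e (Sum.inl x), (Finset.mem_filter.mp hx).2, e (Sum.inl y),
        (Finset.mem_filter.mp hy).2, fun h => hxy (Sum.inl_injective (e.injective h)), ?_⟩
      rw [hv, e.symm_apply_apply, e.symm_apply_apply, iLL, h0]
  · have h1 : ∑ i, v i = T (∑ a, v0 a) := by
      rw [map_sum]
      exact Equiv.sum_comp e.symm (fun a => T (v0 a))
    rw [h1, T.norm_map, ← real_inner_self_eq_norm_sq, ← real_inner_self_eq_norm_sq,
      Fintype.sum_sum_type, inner_add_left, inner_add_right, inner_add_right]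
    have h2 : inner ℝ (∑ x, v0 (Sum.inl x)) (∑ x, v0 (Sum.inl x)) =
        inner ℝ (∑ x, w x) (∑ x, w x) := by
      rw [sum_inner, sum_inner]
      refine Finset.sum_congr rfl fun x _ => ?_
      rw [inner_sum, inner_sum]
      exact Finset.sum_congr rfl fun y _ => iLL x y
    have h3 : inner ℝ (∑ x, v0 (Sum.inl x)) (∑ j, v0 (Sum.inr j)) = (0 : ℝ) := by
      rw [sum_inner]
      refine Finset.sum_eq_zero fun x _ => ?_
      rw [inner_sum]
      exact Finset.sum_eq_zero fun j _ => iLR x j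
    have h4 : inner ℝ (∑ j, v0 (Sum.inr j)) (∑ x, v0 (Sum.inl x)) = (0 : ℝ) := by
      rw [real_inner_comm, h3]
    rw [h2, h3, h4]
    have h5 : 0 ≤ inner ℝ (∑ j, v0 (Sum.inr j)) (∑ j, v0 (Sum.inr j)) := by
      rw [real_inner_self_eq_norm_sq]
      positivity
    linarith

end Pool.Agent.TH58.SN
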