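import Pool.Agent.TH58.SN4

set_option autoImplicit false

open Finset Module

namespace Pool.Agent.TH58.SN

set_option linter.unusedSectionVars false

variable {p : ℕ} [Fact p.Prime]

/-- the coefficients 1, -1, -g, 1, ..., 1 -/
def Dg (g : ZMod p) (j : ℕ) : Fin (j + 3) → ZMod p :=
  Fin.cons 1 (Fin.cons (-1) (Fin.cons (-g) (fun _ => 1)))

theorem Dg_ne (g : ZMod p) (hg : g ≠ 0) (j : ℕ) (i : Fin (j + 3)) : Dg g j i ≠ 0 := by
  unfold Dg
  refine Fin.cases (by simp) (fun i => ?_) i
  refine Fin.cases (by simp) (fun i => ?_) i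
  refine Fin.cases (neg_ne_zero.mpr hg) (fun i => ?_) i
  exact one_ne_zero

theorem Dg_prod (g : ZMod p) (j : ℕ) : ∏ i, Dg g j i = g := by
  unfold Dg
  rw [Fin.prod_univ_succ, Fin.prod_univ_succ, Fin.prod_univ_succ]
  simp only [Fin.cons_zero, Fin.cons_succ, Finset.prod_const_one]
  ring

/-- the part of the form in the last j + 1 variables, subtracted from 1 -/
def cc (g : ZMod p) (j : ℕ) (w : Fin (j + 1) → ZMod p) : ZMod p :=
  1 + g * w 0 ^ 2 - ∑ i : Fin j, w i.succ ^ 2

theorem bf_Dg (g : ZMod p) (j : ℕ) (a b : ZMod p) (w : Fin (j + 1) → ZMod p) :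
    bf (Dg g j) (Fin.cons a (Fin.cons b w)) (Fin.cons a (Fin.cons b w)) =
      a ^ 2 - b ^ 2 + (1 - cc g j w) := by
  unfold bf Dg cc
  rw [Fin.sum_univ_succ, Fin.sum_univ_succ, Fin.sum_univ_succ]
  simp only [Fin.cons_zero, Fin.cons_succ, one_mul]
  have : ∑ i : Fin j, w i.succ * w i.succ = ∑ i : Fin j, w i.succ ^ 2 :=
    Finset.sum_congr rfl fun i _ => by ring
  rw [this]
  ring

/-- few w with cc = 0 -/
theorem card_cc (g : ZMod p) (hg : g ≠ 0) (j : ℕ) :
    (univ.filter fun w : Fin (j + 1) → ZMod p => cc g j w = 0).card ≤ 2 * p ^ j := by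
  have h := Finset.card_le_mul_card_image (f := fun w : Fin (j + 1) → ZMod p => Fin.tail w)
    (univ.filter fun w : Fin (j + 1) → ZMod p => cc g j w = 0) 2 ?_
  · refine le_trans h (Nat.mul_le_mul_left 2 ?_)
    refine le_trans (Finset.card_le_univ _) ?_
    simp
  · intro t _
    refine le_trans (Finset.card_le_card_of_injOn (fun w => w 0) ?_ ?_)
      (card_sq_le (g⁻¹ * (∑ i : Fin j, t i ^ 2 - 1)))
    · intro w hw
      simp only [Finset.coe_filter, Finset.mem_filter, Finset.mem_univ, true_and,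
        Set.mem_setOf_eq] at hw ⊢
      obtain ⟨h1, h2⟩ := hw
      have h3 : ∀ i, t i = w i.succ := fun i => by rw [← h2]; rfl
      simp only [h3]
      unfold cc at h1
      have h4 : g * w 0 ^ 2 = ∑ i : Fin j, w i.succ ^ 2 - 1 := by
        linear_combination h1
      rw [← h4]
      field_simp
    · intro w hw w' hw' h0
      simp only [Finset.coe_filter, Finset.mem_filter, Finset.mem_univ, true_and,
        Set.mem_setOf_eq] at hw hw'
      have h3 : Fin.tail w = Fin.tail w' := by rw [hw.2, hw'.2]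
      rw [← Fin.cons_self_tail w, ← Fin.cons_self_tail w', h3]
      have h0' : w 0 = w' 0 := h0
      rw [h0']

/-- the quadric has at most 2 p^(j+2) points -/
theorem card_upper (g : ZMod p) (j : ℕ) : Fintype.card (Sp (Dg g j)) ≤ 2 * p ^ (j + 2) := by
  have h := Finset.card_le_mul_card_image
    (f := fun x : Sp (Dg g j) => (Fin.tail x.1 : Fin (j + 2) → ZMod p))
    (univ : Finset (Sp (Dg g j))) 2 ?_
  · rw [Finset.card_univ] at h
    refine le_trans h (Nat.mul_le_mul_left 2 ?_)
    refine le_trans (Finset.card_le_univ _) ?_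
    simp
  · intro t _
    obtain ⟨b, w, rfl⟩ : ∃ b w, t = Fin.cons b w := ⟨t 0, Fin.tail t, (Fin.cons_self_tail t).symm⟩
    refine le_trans (Finset.card_le_card_of_injOn (fun x => x.1 0) ?_ ?_)
      (card_sq_le (b ^ 2 + cc g j w))
    · intro x hx
      simp only [Finset.coe_filter, Finset.mem_filter, Finset.mem_univ, true_and,
        Set.mem_setOf_eq] at hx ⊢
      have h1 : x.1 = Fin.cons (x.1 0) (Fin.cons b w) := by
        rw [← hx]
        exact (Fin.cons_self_tail x.1).symm
      have h2 := x.2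
      rw [h1, bf_Dg] at h2
      linear_combination h2
    · intro x hx y hy h0
      simp only [Finset.coe_filter, Finset.mem_filter, Finset.mem_univ, true_and,
        Set.mem_setOf_eq] at hx hy
      have h3 : (Fin.tail x.1 : Fin (j + 2) → ZMod p) = Fin.tail y.1 := by rw [hx, hy]
      have h0' : x.1 0 = y.1 0 := h0
      apply Subtype.ext
      have hx' : x.1 = Fin.cons (x.1 0) (Fin.tail x.1) := (Fin.cons_self_tail x.1).symm
      have hy' : y.1 = Fin.cons (y.1 0) (Fin.tail y.1) := (Fin.cons_self_tail y.1).symm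
      rw [hx', hy', h0', h3]

/-- the quadric has at least (p-1)(p-2) p^j points -/
theorem card_lower (hp : 2 < p) (g : ZMod p) (hg : g ≠ 0) (j : ℕ) :
    (p - 1) * ((p - 2) * p ^ j) ≤ Fintype.card (Sp (Dg g j)) := by
  have h2 : (2 : ZMod p) ≠ 0 := by
    intro h
    have h4 : ((2 : ℕ) : ZMod p) = 0 := by exact_mod_cast h
    rw [ZMod.natCast_eq_zero_iff] at h4
    exact absurd (Nat.le_of_dvd (by norm_num) h4) (by omega)
  let φ : (ZMod p)ˣ × {w : Fin (j + 1) → ZMod p // cc g j w ≠ 0} → Sp (Dg g j) := fun a =>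
    ⟨Fin.cons (((a.1 : ZMod p) + cc g j a.2.1 / (a.1 : ZMod p)) / 2)
      (Fin.cons ((cc g j a.2.1 / (a.1 : ZMod p) - (a.1 : ZMod p)) / 2) a.2.1), by
      rw [bf_Dg]
      have := a.1.ne_zero
      field_simp
      ring⟩
  have hφ : Function.Injective φ := by
    intro a b hab
    have h3 : (φ a).1 = (φ b).1 := congrArg Subtype.val hab
    have h4 : (Fin.tail (φ a).1 : Fin (j + 2) → ZMod p) = Fin.tail (φ b).1 := by rw [h3]
    have h5 : ((a.1 : ZMod p) + cc g j a.2.1 / (a.1 : ZMod p)) / 2 =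
        ((b.1 : ZMod p) + cc g j b.2.1 / (b.1 : ZMod p)) / 2 := congrFun h3 0
    have h6 : (cc g j a.2.1 / (a.1 : ZMod p) - (a.1 : ZMod p)) / 2 =
        (cc g j b.2.1 / (b.1 : ZMod p) - (b.1 : ZMod p)) / 2 := congrFun h4 0
    have h7 : a.2.1 = b.2.1 := by
      funext i
      exact congrFun h4 i.succ
    have h8 : (a.1 : ZMod p) = b.1 := by
      have h9 := congrArg₂ (fun u v : ZMod p => u - v) h5 h6
      field_simp at h9
      ring_nf at h9
      have h10 : (a.1 : ZMod p) * 2 = (b.1 : ZMod p) * 2 := by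
        have e1 : ((a.1 : ZMod p) + cc g j a.2.1 / (a.1 : ZMod p)) =
            ((b.1 : ZMod p) + cc g j b.2.1 / (b.1 : ZMod p)) := by
          have := congrArg (fun u : ZMod p => u * 2) h5
          simpa [div_mul_cancel₀ _ h2] using this
        have e2 : (cc g j a.2.1 / (a.1 : ZMod p) - (a.1 : ZMod p)) =
            (cc g j b.2.1 / (b.1 : ZMod p) - (b.1 : ZMod p)) := by
          have := congrArg (fun u : ZMod p => u * 2) h6
          simpa [div_mul_cancel₀ _ h2] using this
        linear_combination e1 - e2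
      exact mul_right_cancel₀ h2 h10
    exact Prod.ext (Units.ext h8) (Subtype.ext h7)
  have h3 := Fintype.card_le_of_injective φ hφ
  rw [Fintype.card_prod, ZMod.card_units] at h3
  refine le_trans (Nat.mul_le_mul_left _ ?_) h3
  rw [Fintype.card_subtype]
  have h4 := card_cc g hg j
  have h5 : (univ.filter fun w : Fin (j + 1) → ZMod p => cc g j w = 0).card +
      (univ.filter fun w : Fin (j + 1) → ZMod p => cc g j w ≠ 0).card =
      (univ : Finset (Fin (j + 1) → ZMod p)).card :=
    Finset.card_filter_add_card_filter_not _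
  have h6 : (univ : Finset (Fin (j + 1) → ZMod p)).card = p ^ (j + 1) := by
    simp
  rw [h6] at h5
  have h7 : (p - 2) * p ^ j + 2 * p ^ j = p ^ (j + 1) := by
    rw [← add_mul, pow_succ, mul_comm (p ^ j) p]
    congr 1
    omega
  omega

end Pool.Agent.TH58.SN
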