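import Pool.Agent.TH58.SN5
import Pool.Agent.TH58.SN6

set_option autoImplicit false

open Finset Module

namespace Pool.Agent.TH58.SN

set_option linter.unusedSectionVars false

/-- the configuration for a prime p -/
theorem prime_case (j p n : ℕ) [Fact p.Prime] (hp : 2 < p) (hn : 2 * p ^ (j + 2) ≤ n) :
    ∃ v : Fin n → EuclideanSpace ℝ (Fin n), (∀ i, ‖v i‖ = 1) ∧
      (∀ s : Finset (Fin n), s.card = j + 3 →
        ∃ i ∈ s, ∃ i' ∈ s, i ≠ i' ∧ inner ℝ (v i) (v i') = 0) ∧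
      (((p : ℝ) - 1) * (((p : ℝ) - 2) * (p : ℝ) ^ j)) ^ 2 / (p * lam p (j + 3)) ≤
        ‖∑ i, v i‖ ^ 2 := by
  classical
  obtain ⟨g, hg⟩ : ∃ g : ZMod p, ¬ IsSquare g := by
    apply FiniteField.exists_nonsquare
    rw [ZMod.ringChar_zmod_n]
    omega
  have hg0 : g ≠ 0 := by
    rintro rfl
    exact hg (IsSquare.zero)
  obtain ⟨w, hw1, hw2, hw3⟩ := vectors (κ := Fin (j + 3)) hp (Dg g j) (Dg_ne g hg0 j)
  have ho : ∀ s : Finset (Sp (Dg g j)), s.card = j + 3 →
      ∃ x ∈ s, ∃ y ∈ s, x ≠ y ∧ inner ℝ (w x) (w y) = 0 := by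
    intro s hs
    by_contra hcon
    push Not at hcon
    have hb : ∀ x ∈ s, ∀ y ∈ s, x ≠ y → bf (Dg g j) x.1 y.1 = 0 := by
      intro x hx y hy hxy
      by_contra h
      exact hcon x hx y hy hxy (hw2 x y hxy h)
    let e : Fin (j + 3) ≃ s := (Fintype.equivFinOfCardEq (by simpa using hs)).symm
    apply hg
    rw [← Dg_prod g j]
    apply disc_square (Dg g j) (fun i => (e i).1.1)
    · intro i
      exact (e i).1.2
    · intro i i' hii
      exact hb _ (e i).2 _ (e i').2 (fun h => hii (e.injective (Subtype.ext h)))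
  obtain ⟨v, hv1, hv2, hv3⟩ := pad w hw1 (j + 3) (by omega) ho n
    (le_trans (card_upper g j) hn)
  refine ⟨v, hv1, hv2, le_trans ?_ hv3⟩
  refine le_trans ?_ hw3
  rw [Fintype.card_fin]
  have hp0 : (0 : ℝ) < p := p_pos
  have hL : 0 < lam p (j + 3) := lam_pos _
  apply div_le_div_of_nonneg_right _ (by positivity)
  have h1 : (2 : ℝ) < p := by exact_mod_cast hp
  have h2 : ((p : ℝ) - 1) * (((p : ℝ) - 2) * (p : ℝ) ^ j) ≤ Fintype.card (Sp (Dg g j)) := by
    have h3 := card_lower hp g hg0 j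
    have h4 : (((p - 1) * ((p - 2) * p ^ j) : ℕ) : ℝ) ≤ Fintype.card (Sp (Dg g j)) := by
      exact_mod_cast h3
    rw [Nat.cast_mul, Nat.cast_mul, Nat.cast_sub (by omega), Nat.cast_sub (by omega)] at h4
    simpa using h4
  have h5 : 0 ≤ ((p : ℝ) - 1) * (((p : ℝ) - 2) * (p : ℝ) ^ j) := by
    apply mul_nonneg (by linarith) (mul_nonneg (by linarith) (by positivity))
  exact pow_le_pow_left₀ h5 h2 2

/-- trivial configuration -/
theorem trivial_case (k n : ℕ) (hk : 2 ≤ k) (hn : 1 ≤ n) :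
    ∃ v : Fin n → EuclideanSpace ℝ (Fin n), (∀ i, ‖v i‖ = 1) ∧
      (∀ s : Finset (Fin n), s.card = k →
        ∃ i ∈ s, ∃ i' ∈ s, i ≠ i' ∧ inner ℝ (v i) (v i') = 0) ∧
      1 ≤ ‖∑ i, v i‖ := by
  refine ⟨fun i => EuclideanSpace.single i 1, ?_, ?_, ?_⟩
  · intro i
    simp
  · intro s hs
    obtain ⟨i, hi, i', hi', hne⟩ := Finset.one_lt_card.mp (show 1 < s.card by omega)
    refine ⟨i, hi, i', hi', hne, ?_⟩
    simp [EuclideanSpace.inner_single_left, hne]
  · have h1 : ‖∑ i : Fin n, (EuclideanSpace.single i (1 : ℝ) : EuclideanSpace ℝ (Fin n))‖ ^ 2 = n := by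
      rw [← real_inner_self_eq_norm_sq, sum_inner]
      have : ∀ i : Fin n, inner ℝ (EuclideanSpace.single i (1 : ℝ) : EuclideanSpace ℝ (Fin n))
          (∑ i' : Fin n, (EuclideanSpace.single i' (1 : ℝ) : EuclideanSpace ℝ (Fin n))) = 1 := by
        intro i
        rw [inner_sum, Finset.sum_eq_single i]
        · simp
        · intro b _ hb
          simp [EuclideanSpace.inner_single_left, hb.symm]
        · simp
      rw [Finset.sum_congr rfl fun i _ => this i]
      simp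
    have h2 : (1 : ℝ) ≤ n := by exact_mod_cast hn
    have h3 : 0 ≤ ‖∑ i : Fin n, (EuclideanSpace.single i (1 : ℝ) : EuclideanSpace ℝ (Fin n))‖ :=
      norm_nonneg _
    nlinarith

end Pool.Agent.TH58.SN
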