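import Pool.Agent.TH58.SN7

set_option autoImplicit false

open Finset Module

namespace Pool.Agent.TH58.SN

/-- choice of the prime -/
theorem choose_prime (j n : ℕ) (hn : 2 * 4 ^ (j + 2) ≤ n) :
    ∃ p : ℕ, p.Prime ∧ 2 < p ∧ 2 * p ^ (j + 2) ≤ n ∧ n < 2 ^ (j + 3) * p ^ (j + 2) := by
  classical
  let P : ℕ → Prop := fun m => 2 * (2 * m) ^ (j + 2) ≤ n
  have h42 : 1 ≤ 4 ^ (j + 2) := Nat.one_le_pow _ _ (by norm_num)
  have h2n : 2 ≤ n := by omega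
  have hP2 : P 2 := by
    simp only [P]
    norm_num
    exact hn
  set m := Nat.findGreatest P n with hm
  have h2m : 2 ≤ m := Nat.le_findGreatest h2n hP2
  have hPm : P m := Nat.findGreatest_spec (m := 2) h2n hP2
  have hmn : m < n := by
    rcases lt_or_eq_of_le (Nat.findGreatest_le (P := P) n) with h | h
    · exact h
    · exfalso
      have h3 : P n := by
        rw [← hm] at h
        rw [← h]
        exact hPm
      simp only [P] at h3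
      have h4 : 2 * n ≤ (2 * n) ^ (j + 2) := by
        calc 2 * n = (2 * n) ^ 1 := (pow_one _).symm
          _ ≤ (2 * n) ^ (j + 2) := Nat.pow_le_pow_right (by omega) (by omega)
      omega
  have hPm1 : ¬ P (m + 1) := Nat.findGreatest_is_greatest
    (show Nat.findGreatest P n < m + 1 by rw [← hm]; omega) (by omega)
  obtain ⟨p, hp, h1, h2⟩ := Nat.exists_prime_lt_and_le_two_mul m (by omega)
  refine ⟨p, hp, by omega, ?_, ?_⟩
  · exact le_trans (Nat.mul_le_mul_left 2 (Nat.pow_le_pow_left h2 _)) hPm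
  · simp only [P, not_le] at hPm1
    calc n < 2 * (2 * (m + 1)) ^ (j + 2) := hPm1
      _ ≤ 2 * (2 * p) ^ (j + 2) :=
        Nat.mul_le_mul_left 2 (Nat.pow_le_pow_left (Nat.mul_le_mul_left 2 h1) _)
      _ = 2 ^ (j + 3) * p ^ (j + 2) := by
        rw [mul_pow]
        ring

theorem numeric (j p n : ℕ) [Fact p.Prime] (hp : 2 < p) (hn : n < 2 ^ (j + 3) * p ^ (j + 2))
    (θ : ℝ) (hθ : θ = 3 / 4 - 1 / (4 * ((j : ℝ) + 2))) :
    (Real.sqrt (2 / 81) * ((2 : ℝ) ^ (j + 3)) ^ (-θ) * (n : ℝ) ^ θ) ^ 2 ≤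
      (((p : ℝ) - 1) * (((p : ℝ) - 2) * (p : ℝ) ^ j)) ^ 2 / (p * lam p (j + 3)) := by
  set P : ℝ := (p : ℝ) with hPdef
  have hP3 : (3 : ℝ) ≤ P := by
    have h3 : 3 ≤ p := hp
    rw [hPdef]
    exact_mod_cast h3
  have hP0 : 0 < P := by linarith
  have hj0 : (0 : ℝ) < (j : ℝ) + 2 := by positivity
  have hθ0 : 0 ≤ θ := by
    rw [hθ, sub_nonneg, div_le_iff₀ (by positivity)]
    nlinarith
  have hθj : ((j : ℝ) + 2) * θ = (3 * j + 5) / 4 := by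
    rw [hθ]
    field_simp
    ring
  -- lower bound of the numerator
  have h1 : (2 / 9 : ℝ) * P ^ (j + 2) ≤ (P - 1) * ((P - 2) * P ^ j) := by
    have h2 : (2 / 9 : ℝ) * P ^ 2 ≤ (P - 1) * (P - 2) := by nlinarith
    calc (2 / 9 : ℝ) * P ^ (j + 2) = (2 / 9 : ℝ) * P ^ 2 * P ^ j := by ring
      _ ≤ (P - 1) * (P - 2) * P ^ j := mul_le_mul_of_nonneg_right h2 (by positivity)
      _ = _ := by ring
  have h2 : (4 / 81 : ℝ) * P ^ (2 * j + 4) ≤ ((P - 1) * ((P - 2) * P ^ j)) ^ 2 := by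
    calc (4 / 81 : ℝ) * P ^ (2 * j + 4) = ((2 / 9 : ℝ) * P ^ (j + 2)) ^ 2 := by ring
      _ ≤ _ := pow_le_pow_left₀ (by positivity) h1 2
  have hlam : lam p (j + 3) = 2 * P ^ (((j : ℝ) + 1) / 2) := by
    unfold lam
    rw [← hPdef]
    have h3 : P ^ (j + 3) / P ^ 2 = P ^ (j + 1) := by
      rw [div_eq_iff (by positivity)]
      ring
    rw [h3, Real.sqrt_eq_rpow, ← Real.rpow_natCast, ← Real.rpow_mul hP0.le]
    push_cast
    congr 2
    ring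
  have h3 : (2 / 81 : ℝ) * P ^ ((3 * (j : ℝ) + 5) / 2) ≤
      ((P - 1) * ((P - 2) * P ^ j)) ^ 2 / (P * lam p (j + 3)) := by
    rw [le_div_iff₀ (mul_pos hP0 (lam_pos _)), hlam]
    refine le_trans (le_of_eq ?_) h2
    have h4 : P ^ (2 * j + 4) = P ^ (((3 * (j : ℝ) + 5) / 2) + (1 + ((j : ℝ) + 1) / 2)) := by
      rw [← Real.rpow_natCast]
      congr 1
      push_cast
      ring
    rw [h4, Real.rpow_add hP0, Real.rpow_add hP0, Real.rpow_one]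
    ring
  refine le_trans ?_ h3
  have h5 : (n : ℝ) ^ θ ≤ ((2 : ℝ) ^ (j + 3)) ^ θ * P ^ ((3 * (j : ℝ) + 5) / 4) := by
    have h6 : (n : ℝ) ≤ (2 : ℝ) ^ (j + 3) * P ^ (j + 2) := by
      rw [hPdef]
      exact_mod_cast hn.le
    calc (n : ℝ) ^ θ ≤ ((2 : ℝ) ^ (j + 3) * P ^ (j + 2)) ^ θ :=
          Real.rpow_le_rpow (by positivity) h6 hθ0
      _ = ((2 : ℝ) ^ (j + 3)) ^ θ * (P ^ (j + 2)) ^ θ :=
          Real.mul_rpow (by positivity) (by positivity)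
      _ = _ := by
          congr 1
          rw [← Real.rpow_natCast P (j + 2), ← Real.rpow_mul hP0.le]
          congr 1
          push_cast
          exact hθj
  have h7 : Real.sqrt (2 / 81) * ((2 : ℝ) ^ (j + 3)) ^ (-θ) * (n : ℝ) ^ θ ≤
      Real.sqrt (2 / 81) * P ^ ((3 * (j : ℝ) + 5) / 4) := by
    have h8 : ((2 : ℝ) ^ (j + 3)) ^ (-θ) * ((2 : ℝ) ^ (j + 3)) ^ θ = 1 := by
      rw [← Real.rpow_add (by positivity)]
      simp
    calc Real.sqrt (2 / 81) * ((2 : ℝ) ^ (j + 3)) ^ (-θ) * (n : ℝ) ^ θ ≤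
        Real.sqrt (2 / 81) * ((2 : ℝ) ^ (j + 3)) ^ (-θ) *
          (((2 : ℝ) ^ (j + 3)) ^ θ * P ^ ((3 * (j : ℝ) + 5) / 4)) :=
          mul_le_mul_of_nonneg_left h5 (by positivity)
      _ = Real.sqrt (2 / 81) * (((2 : ℝ) ^ (j + 3)) ^ (-θ) * ((2 : ℝ) ^ (j + 3)) ^ θ) *
          P ^ ((3 * (j : ℝ) + 5) / 4) := by ring
      _ = _ := by rw [h8, mul_one]
  calc _ ≤ (Real.sqrt (2 / 81) * P ^ ((3 * (j : ℝ) + 5) / 4)) ^ 2 :=
        pow_le_pow_left₀ (by positivity) h7 2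
    _ = (2 / 81 : ℝ) * P ^ ((3 * (j : ℝ) + 5) / 2) := by
        rw [mul_pow, Real.sq_sqrt (by norm_num)]
        congr 1
        rw [← Real.rpow_natCast, ← Real.rpow_mul hP0.le]
        congr 1
        push_cast
        ring

theorem main_j (j : ℕ) :
    ∃ c : ℝ, 0 < c ∧ ∀ n : ℕ, 1 ≤ n →
      ∃ v : Fin n → EuclideanSpace ℝ (Fin n), (∀ i, ‖v i‖ = 1) ∧
        (∀ s : Finset (Fin n), s.card = j + 3 →
          ∃ a ∈ s, ∃ b ∈ s, a ≠ b ∧ inner ℝ (v a) (v b) = 0) ∧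
        c * (n : ℝ) ^ (3 / 4 - 1 / (4 * ((j : ℝ) + 2))) ≤ ‖∑ i, v i‖ := by
  obtain ⟨θ, hθ⟩ : ∃ θ : ℝ, θ = 3 / 4 - 1 / (4 * ((j : ℝ) + 2)) := ⟨_, rfl⟩
  rw [← hθ]
  have hθ1 : θ ≤ 1 := by
    have : 0 ≤ 1 / (4 * ((j : ℝ) + 2)) := by positivity
    linarith
  set c1 : ℝ := Real.sqrt (2 / 81) * ((2 : ℝ) ^ (j + 3)) ^ (-θ) with hc1
  have hc1p : 0 < c1 := by positivity
  set n1 : ℝ := 2 * 4 ^ (j + 2) with hn1
  have hn1p : 0 < n1 := by positivity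
  refine ⟨min (1 / n1) c1, lt_min (by positivity) hc1p, ?_⟩
  intro n hn
  have hn0 : (1 : ℝ) ≤ n := by exact_mod_cast hn
  by_cases hbig : 2 * 4 ^ (j + 2) ≤ n
  · obtain ⟨p, hp, h2, h3, h4⟩ := choose_prime j n hbig
    have : Fact p.Prime := ⟨hp⟩
    obtain ⟨v, hv1, hv2, hv3⟩ := prime_case j p n h2 h3
    refine ⟨v, hv1, hv2, ?_⟩
    have h5 := numeric j p n h2 h4 θ hθ
    have h6 : (c1 * (n : ℝ) ^ θ) ^ 2 ≤ ‖∑ i, v i‖ ^ 2 := le_trans h5 hv3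
    have h7 : c1 * (n : ℝ) ^ θ ≤ ‖∑ i, v i‖ := by
      exact le_of_sq_le_sq h6 (norm_nonneg _)
    refine le_trans (mul_le_mul_of_nonneg_right (min_le_right _ _) (by positivity)) h7
  · obtain ⟨v, hv1, hv2, hv3⟩ := trivial_case (j + 3) n (by omega) hn
    refine ⟨v, hv1, hv2, le_trans ?_ hv3⟩
    have h5 : (n : ℝ) ≤ n1 := by
      rw [hn1]
      push Not at hbig
      exact_mod_cast hbig.le
    calc min (1 / n1) c1 * (n : ℝ) ^ θ ≤ 1 / n1 * (n : ℝ) ^ (1 : ℝ) := by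
          apply mul_le_mul (min_le_left _ _) _ (by positivity) (by positivity)
          exact Real.rpow_le_rpow_of_exponent_le hn0 hθ1
      _ = n / n1 := by
          rw [Real.rpow_one]
          ring
      _ ≤ 1 := by
          rw [div_le_one hn1p]
          exact h5

end Pool.Agent.TH58.SN
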